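import Pool.Agent.H44.NR.Lip
import Pool.Agent.H47.RJ.JPF
import Pool.Agent.H47.RJ.FSI

/-!
# Module Pdj: periodic points are dense in the Julia set

PROOF (Fatou, Julia). `js_perfect` (H47/RJ/JPF): there is `x' ∈ JS (Rf v) ∩ interior U`, `x' ≠ ∞`, not a critical value, `x' ≠ Rf v ∞`, `Rf v x' ≠ x'` (finitely many exceptions: `crit_finite`, `per_finite`). As `x'` is not a critical value and the degree is `≥ 2` it has two different preimages `a0, a1` (finite, because `x' ≠ Rf v ∞`; both `≠ x'`),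
and there are holomorphic local inverse branches `g0, g1` near `x'` (`(pol v.1).eval (g i z) / (pol v.2).eval (g i z) = z`, `(pol v.2).eval (g i z) ≠ 0`; inverse function theorem, or `fs`, `mem_fs` and the branches of H80/AJ), `g0 z ≠ g1 z`, `g i z ≠ z` near `x'`.
Suppose no point of `U` is periodic. For `n ≥ 1` and `z` in a disc `ball x' r` (its points are in `U`): `(Rf v)^[n] z ≠ z`, and `(Rf v)^[n] z ≠ g i z` (otherwise `(Rf v)^[n+1] z = z`). In homogeneous coordinates (`perRS (pol v.1) (pol v.2) n`, see the proof of `m3_ch`, H47/RJ/M3M) the iterates `n ≥ 1` omit the three moving values `z, g0 z, g1 z`: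
`lipm` with `α = (z, g0, g1)`, `β = 1`, `R, S` the two polynomials: all iterates `n ≥ 1` are Lipschitz with the same constant on `ball x' (r / 2)` (chordal distance against `‖z - w‖`), `n = 0` is clear, so `EqAt (Rf v) z` for all `z` in this ball (compare chordal and euclidean distance near a finite point), so `x' ∈ FS`: contradiction.
`rep_dense`: for `¬ Up v` the periodic points in the Fatou set are attracting (`nup_ar` below or in the chart of `gen_ch`: `ar_gen`, H44/CP/PTR; conjugacy `isSink_conj`, H32/BT) and every sink attracts a critical point (`sink_crit`, H44/ND/SKC), a critical point is attracted by one cycle only, so there are finitely many attracting periodic points (at most `2 d` cycles);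
remove this finite set (closed, disjoint from `JS`) from `U`.
-/

set_option autoImplicit false

open Filter Topology Polynomial Metric Set

namespace Pool.Agent.H44.NR

open Pool.Agent.H44.Fatou Pool.Agent.H32.BT Pool.Agent.H79.Eul Pool.Agent.H79.Par
open Pool.Agent.H35.EX Pool.Agent.H44.RR Pool.Agent.H56.HR Pool.Agent.H44.RC Pool.Agent.H47.RJ

variable {d : ℕ} {v : E d}

private theorem pdj_q {P Q : Polynomial ℂ} (hcop : IsCoprime P Q) {a x1 : ℂ}
    (h : P.eval a = x1 * Q.eval a) : Q.eval a ≠ 0 := by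
  intro h0
  obtain ⟨u, w, huw⟩ := hcop
  have h1 := congrArg (Polynomial.eval a) huw
  rw [eval_add, eval_mul, eval_mul, h, h0, eval_one] at h1
  simp at h1

private theorem pdj_two {P Q : Polynomial ℂ} (hcop : IsCoprime P Q) {d : ℕ} (hd : 2 ≤ d)
    (hdeg : max P.natDegree Q.natDegree = d) {x1 : ℂ}
    (hinf : rat P Q OnePoint.infty ≠ (x1 : OnePoint ℂ))
    (hw : ∀ a : ℂ, (wronskian P Q).eval a = 0 → rat P Q (a : OnePoint ℂ) ≠ (x1 : OnePoint ℂ)) :
    ∃ a0 a1 : ℂ, a0 ≠ a1 ∧ P.eval a0 = x1 * Q.eval a0 ∧ P.eval a1 = x1 * Q.eval a1 ∧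
      (wronskian P Q).eval a0 ≠ 0 ∧ (wronskian P Q).eval a1 ≠ 0 := by
  classical
  obtain ⟨W, hW⟩ : ∃ W : Polynomial ℂ, W = P - C x1 * Q := ⟨_, rfl⟩
  have hWe : ∀ a, W.eval a = 0 ↔ P.eval a = x1 * Q.eval a := by
    intro a
    rw [hW, eval_sub, eval_mul, eval_C, sub_eq_zero]
  have hdg : dg P Q = d := hdeg
  have hWd : W.coeff d ≠ 0 := by
    rw [hW, coeff_sub, coeff_C_mul]
    intro h0
    have h1 : P.coeff d = x1 * Q.coeff d := sub_eq_zero.1 h0
    by_cases hq : Q.coeff d = 0
    · rw [hq, mul_zero] at h1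
      rcases max_choice P.natDegree Q.natDegree with h2 | h2
      · have h4 : P.natDegree = d := by rw [← h2, hdeg]
        rw [← h4] at h1
        have h3 : P = 0 := leadingCoeff_eq_zero.1 h1
        rw [h3, natDegree_zero] at h4
        omega
      · have h4 : Q.natDegree = d := by rw [← h2, hdeg]
        rw [← h4] at hq
        have h3 : Q = 0 := leadingCoeff_eq_zero.1 hq
        rw [h3, natDegree_zero] at h4
        omega
    · apply hinf
      show pt (P.coeff (dg P Q)) (Q.coeff (dg P Q)) = _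
      rw [hdg]
      unfold pt
      rw [if_neg hq, h1, mul_div_assoc, div_self hq, mul_one]
  have hW0 : W ≠ 0 := by
    rintro rfl
    exact hWd (coeff_zero d)
  have hdW : d ≤ W.natDegree := le_natDegree_of_ne_zero hWd
  have hrat : ∀ a, W.eval a = 0 → rat P Q (a : OnePoint ℂ) = (x1 : OnePoint ℂ) := by
    intro a ha
    have h1 := (hWe a).1 ha
    have h2 := pdj_q hcop h1
    show pt (P.eval a) (Q.eval a) = _
    unfold pt
    rw [if_neg h2, h1, mul_div_assoc, div_self h2, mul_one]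
  have hwn : ∀ a, W.eval a = 0 → (wronskian P Q).eval a ≠ 0 := fun a ha h0 => hw a h0 (hrat a ha)
  have hder : ∀ a, W.eval a = 0 → (derivative W).eval a ≠ 0 := by
    intro a ha h0
    apply hwn a ha
    have h1 := (hWe a).1 ha
    rw [hW, derivative_sub, derivative_C_mul, eval_sub, eval_mul, eval_C] at h0
    unfold wronskian
    rw [eval_sub, eval_mul, eval_mul, h1]
    linear_combination (-(Q.eval a)) * h0
  obtain ⟨a0, ha0⟩ : ∃ a0, W.eval a0 = 0 := by
    refine IsAlgClosed.exists_root W ?_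
    intro h0
    have := natDegree_eq_of_degree_eq_some (n := 0) h0
    omega
  by_cases hex : ∃ a1, W.eval a1 = 0 ∧ a1 ≠ a0
  · obtain ⟨a1, ha1, hne⟩ := hex
    exact ⟨a0, a1, hne.symm, (hWe a0).1 ha0, (hWe a1).1 ha1, hwn a0 ha0, hwn a1 ha1⟩
  · exfalso
    push Not at hex
    have hcard : Multiset.card W.roots = W.natDegree :=
      (splits_iff_card_roots.1 (IsAlgClosed.splits W))
    have hrep : W.roots = Multiset.replicate (Multiset.card W.roots) a0 := by
      rw [Multiset.eq_replicate_card]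
      intro b hb
      exact hex b ((mem_roots hW0).1 hb)
    have hcnt : W.roots.count a0 = W.natDegree := by
      rw [hrep, Multiset.count_replicate_self, hcard]
    rw [count_roots] at hcnt
    have h1 : 1 < W.rootMultiplicity a0 := by omega
    have h2 := ((one_lt_rootMultiplicity_iff_isRoot hW0).1 h1).2
    exact hder a0 ha0 h2

private theorem pdj_br {P Q : Polynomial ℂ} {a x1 : ℂ} (h : P.eval a = x1 * Q.eval a)
    (hQ : Q.eval a ≠ 0) (hw : (wronskian P Q).eval a ≠ 0) :
    ∃ g : ℂ → ℂ, AnalyticAt ℂ g x1 ∧ g x1 = a ∧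
      ∀ᶠ z in 𝓝 x1, P.eval (g z) / Q.eval (g z) = z := by
  obtain ⟨F, hF⟩ : ∃ F : ℂ → ℂ, F = fun a => P.eval a / Q.eval a := ⟨_, rfl⟩
  have hev : ∀ᶠ z in 𝓝 a, Q.eval z ≠ 0 := Q.continuous.continuousAt.eventually_ne hQ
  have hd : ∀ z, Q.eval z ≠ 0 → HasDerivAt F
      (((derivative P).eval z * Q.eval z - P.eval z * (derivative Q).eval z) / Q.eval z ^ 2) z := by
    intro z hz
    rw [hF]
    exact (P.hasDerivAt z).div (Q.hasDerivAt z) hz
  have han : AnalyticAt ℂ F a := by
    rw [Complex.analyticAt_iff_eventually_differentiableAt]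
    filter_upwards [hev] with z hz
    exact (hd z hz).differentiableAt
  have hFa : F a = x1 := by
    rw [hF]
    show P.eval a / Q.eval a = x1
    rw [h, mul_div_assoc, div_self hQ, mul_one]
  have hne : deriv F a ≠ 0 := by
    rw [(hd a hQ).deriv]
    refine div_ne_zero ?_ (pow_ne_zero 2 hQ)
    intro h0
    apply hw
    unfold wronskian
    rw [eval_sub, eval_mul, eval_mul]
    linear_combination -h0
  obtain ⟨g, hg⟩ : ∃ g, g = han.hasStrictDerivAt.localInverse _ _ _ hne := ⟨_, rfl⟩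
  refine ⟨g, ?_, ?_, ?_⟩
  · rw [hg, ← hFa]
    exact han.analyticAt_localInverse hne
  · rw [hg, ← hFa]
    exact HasStrictFDerivAt.localInverse_apply_image ..
  · have h3 : ∀ᶠ z in 𝓝 x1, F (g z) = z := by
      rw [hg, ← hFa]
      exact han.hasStrictDerivAt.eventually_right_inverse hne
    rw [hF] at h3
    exact h3

private theorem pdj_chord (z w : ℂ) : chord (z : OnePoint ℂ) (w : OnePoint ℂ) ≤ 1 * ‖z - w‖ := by
  show ‖z - w‖ / (√(1 + ‖z‖ ^ 2) * √(1 + ‖w‖ ^ 2)) ≤ _
  rw [one_mul]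
  refine div_le_self (norm_nonneg _) ?_
  have h1 : ∀ u : ℂ, 1 ≤ √(1 + ‖u‖ ^ 2) := by
    intro u
    rw [Real.one_le_sqrt]
    have := sq_nonneg ‖u‖
    linarith
  have h2 := h1 z
  have h3 := h1 w
  nlinarith

theorem per_dense (hd : 2 ≤ d) (hcop : IsCoprime (pol v.1) (pol v.2))
    (hdeg : max (pol v.1).natDegree (pol v.2).natDegree = d) {x : OnePoint ℂ} (hx : x ∈ JS (Rf v))
    {U : Set (OnePoint ℂ)} (hU : U ∈ 𝓝 x) : ∃ p ∈ U, ∃ N : ℕ, 1 ≤ N ∧ (Rf v)^[N] p = p := by
  classical
  by_contra hcon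
  push Not at hcon
  -- the Wronskian
  have hwr : wronskian (pol v.1) (pol v.2) ≠ 0 := by
    intro h0
    obtain ⟨h1, h2⟩ := hcop.wronskian_eq_zero_iff.1 h0
    have h3 := derivative_eq_zero.1 h1
    have h4 := derivative_eq_zero.1 h2
    rw [h3, h4] at hdeg
    simp at hdeg
    omega
  -- the finite exceptional set
  obtain ⟨T, hTfin, hT⟩ : ∃ T : Set (OnePoint ℂ), T.Finite ∧ ∀ y, y ∉ T →
      y ≠ OnePoint.infty ∧ y ≠ Rf v OnePoint.infty ∧ Rf v y ≠ y ∧
      ∀ a : ℂ, (wronskian (pol v.1) (pol v.2)).eval a = 0 → Rf v (a : OnePoint ℂ) ≠ y := by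
    refine ⟨({OnePoint.infty, Rf v OnePoint.infty} ∪ {y | (Rf v)^[1] y = y}) ∪
      (fun a : ℂ => Rf v (a : OnePoint ℂ)) ''
        {a : ℂ | (wronskian (pol v.1) (pol v.2)).eval a = 0}, ?_, ?_⟩
    · refine ((toFinite _).union (per_finite hcop (by omega) one_pos)).union (Finite.image _ ?_)
      refine (wronskian (pol v.1) (pol v.2)).roots.toFinset.finite_toSet.subset ?_
      intro a ha
      simp only [Finset.mem_coe, Multiset.mem_toFinset]
      exact (mem_roots hwr).2 ha
    · intro y hy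
      refine ⟨fun h => hy ?_, fun h => hy ?_, fun h => hy ?_, fun a ha h => hy ?_⟩
      · exact Or.inl (Or.inl (Or.inl h))
      · exact Or.inl (Or.inl (Or.inr h))
      · exact Or.inl (Or.inr h)
      · exact Or.inr ⟨a, ha, h⟩
  obtain ⟨ε, hε, hεU⟩ := ch_nhds (interior_mem_nhds.2 hU)
  obtain ⟨x', ⟨hx'J, hx'c⟩, hx'T⟩ := (js_perfect hd hcop hdeg hx hε).exists_notMem_finite hTfin
  obtain ⟨hx0, hxi, hxf, hxw⟩ := hT x' hx'T
  have hx'U : x' ∈ interior U := hεU x' hx'c
  obtain ⟨x1, rfl⟩ := OnePoint.ne_infty_iff_exists.1 hx0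
  -- two preimages and the inverse branches
  obtain ⟨a0, a1, hne, he0, he1, hw0, hw1⟩ := pdj_two hcop hd hdeg (x1 := x1) (Ne.symm hxi) hxw
  have hq0 := pdj_q hcop he0
  have hq1 := pdj_q hcop he1
  obtain ⟨g0, hg0a, hg0x, hg0e⟩ := pdj_br he0 hq0 hw0
  obtain ⟨g1, hg1a, hg1x, hg1e⟩ := pdj_br he1 hq1 hw1
  have hnf : ∀ a : ℂ, (pol v.1).eval a = x1 * (pol v.2).eval a → a ≠ x1 := by
    rintro a ha rfl
    apply hxf
    have h2 := pdj_q hcop ha
    show pt ((pol v.1).eval a) ((pol v.2).eval a) = _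
    unfold pt
    rw [if_neg h2, ha, mul_div_assoc, div_self h2, mul_one]
  have hev : ∀ᶠ z : ℂ in 𝓝 x1, (z : OnePoint ℂ) ∈ interior U ∧
      (DifferentiableAt ℂ g0 z ∧ DifferentiableAt ℂ g1 z) ∧
      ((pol v.1).eval (g0 z) / (pol v.2).eval (g0 z) = z ∧ (pol v.2).eval (g0 z) ≠ 0) ∧
      ((pol v.1).eval (g1 z) / (pol v.2).eval (g1 z) = z ∧ (pol v.2).eval (g1 z) ≠ 0) ∧
      g0 z ≠ g1 z ∧ g0 z ≠ z ∧ g1 z ≠ z := by
    have e1 : ∀ᶠ z : ℂ in 𝓝 x1, (z : OnePoint ℂ) ∈ interior U :=
      OnePoint.continuous_coe.continuousAt.eventually (isOpen_interior.mem_nhds hx'U)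
    have e2 : ∀ᶠ z in 𝓝 x1, DifferentiableAt ℂ g0 z :=
      hg0a.eventually_analyticAt.mono fun z hz => hz.differentiableAt
    have e3 : ∀ᶠ z in 𝓝 x1, DifferentiableAt ℂ g1 z :=
      hg1a.eventually_analyticAt.mono fun z hz => hz.differentiableAt
    have c0 : ContinuousAt g0 x1 := hg0a.continuousAt
    have c1 : ContinuousAt g1 x1 := hg1a.continuousAt
    have e4 : ∀ᶠ z in 𝓝 x1, (pol v.2).eval (g0 z) ≠ 0 := by
      have : ContinuousAt (fun z => (pol v.2).eval (g0 z)) x1 :=
        (pol v.2).continuous.continuousAt.comp c0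
      refine this.eventually_ne ?_
      rw [hg0x]
      exact hq0
    have e5 : ∀ᶠ z in 𝓝 x1, (pol v.2).eval (g1 z) ≠ 0 := by
      have : ContinuousAt (fun z => (pol v.2).eval (g1 z)) x1 :=
        (pol v.2).continuous.continuousAt.comp c1
      refine this.eventually_ne ?_
      rw [hg1x]
      exact hq1
    have e6 : ∀ᶠ z in 𝓝 x1, g0 z - g1 z ≠ 0 := by
      refine (c0.sub c1).eventually_ne ?_
      show g0 x1 - g1 x1 ≠ 0
      rw [hg0x, hg1x]
      exact sub_ne_zero.2 hne
    have e7 : ∀ᶠ z in 𝓝 x1, g0 z - z ≠ 0 := by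
      refine (c0.sub continuousAt_id).eventually_ne ?_
      show g0 x1 - x1 ≠ 0
      rw [hg0x]
      exact sub_ne_zero.2 (hnf a0 he0)
    have e8 : ∀ᶠ z in 𝓝 x1, g1 z - z ≠ 0 := by
      refine (c1.sub continuousAt_id).eventually_ne ?_
      show g1 x1 - x1 ≠ 0
      rw [hg1x]
      exact sub_ne_zero.2 (hnf a1 he1)
    filter_upwards [e1, e2, e3, e4, e5, e6, e7, e8, hg0e, hg1e] with z h1 h2 h3 h4 h5 h6 h7 h8 h9 h10
    exact ⟨h1, ⟨h2, h3⟩, ⟨h9, h4⟩, ⟨h10, h5⟩, sub_ne_zero.1 h6, sub_ne_zero.1 h7, sub_ne_zero.1 h8⟩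
  obtain ⟨r, hr, hball⟩ := Metric.eventually_nhds_iff_ball.1 hev
  -- the Lipschitz constant
  obtain ⟨α, hα⟩ : ∃ α : Fin 3 → ℂ → ℂ, α = ![fun z => z, g0, g1] := ⟨_, rfl⟩
  have hα0 : α 0 = fun z => z := by rw [hα]; rfl
  have hα1 : α 1 = g0 := by rw [hα]; rfl
  have hα2 : α 2 = g1 := by rw [hα]; rfl
  obtain ⟨K, hK, hlip⟩ := lipm (x := x1) hr (α := α) (β := fun _ _ => 1) (by
      intro i z hz
      obtain ⟨-, ⟨h2, h3⟩, -⟩ := hball z hz
      refine DifferentiableAt.differentiableWithinAt ?_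
      fin_cases i
      · show DifferentiableAt ℂ (α 0) z
        rw [hα0]
        exact differentiableAt_id
      · show DifferentiableAt ℂ (α 1) z
        rw [hα1]
        exact h2
      · show DifferentiableAt ℂ (α 2) z
        rw [hα2]
        exact h3) (fun i => differentiableOn_const _) (by
      intro i j hij z hz
      obtain ⟨-, -, -, -, h01, h0, h1⟩ := hball z hz
      have k0 : α 0 z = z := by rw [hα0]
      have k1 : α 1 z = g0 z := by rw [hα1]
      have k2 : α 2 z = g1 z := by rw [hα2]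
      rw [mul_one, mul_one]
      refine sub_ne_zero.2 ?_
      fin_cases i <;> fin_cases j
      · exact absurd rfl hij
      · show α 0 z ≠ α 1 z
        rw [k0, k1]
        exact h0.symm
      · show α 0 z ≠ α 2 z
        rw [k0, k2]
        exact h1.symm
      · show α 1 z ≠ α 0 z
        rw [k0, k1]
        exact h0
      · exact absurd rfl hij
      · show α 1 z ≠ α 2 z
        rw [k1, k2]
        exact h01
      · show α 2 z ≠ α 0 z
        rw [k0, k2]
        exact h1
      · show α 2 z ≠ α 1 z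
        rw [k1, k2]
        exact h01.symm
      · exact absurd rfl hij)
  have hit : ∀ (n : ℕ) (z : ℂ), (Rf v)^[n] (z : OnePoint ℂ) =
      pt ((perRS (pol v.1) (pol v.2) n).1.eval z) ((perRS (pol v.1) (pol v.2) n).2.eval z) :=
    fun n z => (perRS_spec hcop z n).2
  have hne2 : ∀ (n : ℕ) (z : ℂ), (perRS (pol v.1) (pol v.2) n).1.eval z ≠ 0 ∨
      (perRS (pol v.1) (pol v.2) n).2.eval z ≠ 0 := fun n z => (perRS_spec hcop z n).1
  -- a moving value is not taken
  have hval : ∀ (n : ℕ) (z u : ℂ), (perRS (pol v.1) (pol v.2) n).1.eval z =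
      u * (perRS (pol v.1) (pol v.2) n).2.eval z → (Rf v)^[n] (z : OnePoint ℂ) = (u : OnePoint ℂ) := by
    intro n z u h
    have h2 : (perRS (pol v.1) (pol v.2) n).2.eval z ≠ 0 := by
      intro h0
      rcases hne2 n z with h3 | h3
      · exact h3 (by rw [h, h0, mul_zero])
      · exact h3 h0
    rw [hit]
    unfold pt
    rw [if_neg h2, h, mul_div_assoc, div_self h2, mul_one]
  have hbr : ∀ (n : ℕ) (z u : ℂ), z ∈ ball x1 r → (pol v.1).eval u / (pol v.2).eval u = z →
      (pol v.2).eval u ≠ 0 → (Rf v)^[n] (z : OnePoint ℂ) ≠ (u : OnePoint ℂ) := by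
    intro n z u hz h1 h2 h3
    refine hcon (z : OnePoint ℂ) (interior_subset (hball z hz).1) (n + 1) (by omega) ?_
    rw [Function.iterate_succ_apply', h3]
    show pt ((pol v.1).eval u) ((pol v.2).eval u) = _
    unfold pt
    rw [if_neg h2, h1]
  have hL : ∀ n : ℕ, ∀ z ∈ ball x1 (r / 2), ∀ w ∈ ball x1 (r / 2),
      chord ((Rf v)^[n] (z : OnePoint ℂ)) ((Rf v)^[n] (w : OnePoint ℂ)) ≤ (K + 1) * ‖z - w‖ := by
    intro n z hz w hw
    rcases Nat.eq_zero_or_pos n with hn | hn
    · subst hn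
      refine (pdj_chord z w).trans ?_
      exact mul_le_mul_of_nonneg_right (by linarith) (norm_nonneg _)
    · have h1 := hlip (fun z => (perRS (pol v.1) (pol v.2) n).1.eval z)
        (fun z => (perRS (pol v.1) (pol v.2) n).2.eval z)
        (Polynomial.differentiable _).differentiableOn
        (Polynomial.differentiable _).differentiableOn (by
          intro i z hz h0
          have h0' : (perRS (pol v.1) (pol v.2) n).1.eval z =
              α i z * (perRS (pol v.1) (pol v.2) n).2.eval z := by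
            linear_combination h0
          have h2 := hval n z (α i z) h0'
          obtain ⟨hzU, -, ⟨h3, h4⟩, ⟨h5, h6⟩, -⟩ := hball z hz
          fin_cases i
          · have k0 : α 0 z = z := by rw [hα0]
            change (Rf v)^[n] (z : OnePoint ℂ) = ((α 0 z : ℂ) : OnePoint ℂ) at h2
            rw [k0] at h2
            exact hcon _ (interior_subset hzU) n hn h2
          · have k1 : α 1 z = g0 z := by rw [hα1]
            change (Rf v)^[n] (z : OnePoint ℂ) = ((α 1 z : ℂ) : OnePoint ℂ) at h2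
            rw [k1] at h2
            exact hbr n z (g0 z) hz h3 h4 h2
          · have k2 : α 2 z = g1 z := by rw [hα2]
            change (Rf v)^[n] (z : OnePoint ℂ) = ((α 2 z : ℂ) : OnePoint ℂ) at h2
            rw [k2] at h2
            exact hbr n z (g1 z) hz h5 h6 h2) z hz w hw
      rw [hit, hit]
      refine h1.trans ?_
      exact mul_le_mul_of_nonneg_right (by linarith) (norm_nonneg _)
  -- the point is in the Fatou set
  apply hx'J
  refine interior_maximal (t := (fun z : ℂ => (z : OnePoint ℂ)) '' ball x1 (r / 2)) ?_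
    (OnePoint.isOpenEmbedding_coe.isOpenMap _ isOpen_ball) ?_
  · rintro _ ⟨z, hz, rfl⟩ ε hε
    show ∀ᶠ y in 𝓝 (z : OnePoint ℂ), _
    rw [OnePoint.nhds_coe_eq, Filter.eventually_map]
    have hρ : 0 < ε / (K + 1) := by positivity
    filter_upwards [isOpen_ball.mem_nhds hz, ball_mem_nhds z hρ] with w hw1 hw2 n
    refine lt_of_le_of_lt (hL n z hz w hw1) ?_
    rw [mem_ball, dist_eq_norm, norm_sub_rev, lt_div_iff₀ (by positivity)] at hw2
    linarith
  · exact ⟨x1, mem_ball_self (by positivity), rfl⟩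

end Pool.Agent.H44.NR
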