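import Pool.Agent.H44.NR.Rng
import Pool.Agent.H64.MJ.MKS
import Pool.Agent.H47.PS.RED

/-!
# Module Cyf: four disjoint repelling cycles in the plane

PROOF. There are infinitely many periodic points (`per_inf`, in the chart of `gen_ch`) and finitely many sinks (`sink_fin`); a periodic point in the Fatou set is attracted (`fs_att`), so it is a sink. So there are infinitely many periodic points in the Julia set. Choose four with disjoint orbits which do not contain infinity; `mk_cyc`.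
-/

set_option autoImplicit false

open Filter Topology Polynomial Metric Set

namespace Pool.Agent.H44.NR

open Pool.Agent.H44.Fatou Pool.Agent.H32.BT Pool.Agent.H79.Eul Pool.Agent.H79.Par
open Pool.Agent.H35.EX Pool.Agent.H44.RR Pool.Agent.H56.HR Pool.Agent.H44.RC Pool.Agent.H47.RJ
open Pool.Agent.H47.NM Pool.Agent.H47.NN Pool.Agent.H44.ND Pool.Agent.H79.ES Pool.Agent.H44.RG
open Pool.Agent.H44.CP Pool.Agent.H47.PS

variable {d : ℕ} {v : E d}

/-- infinitely many periodic points -/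
theorem perj_inf (hd : 2 ≤ d) (hcop : IsCoprime (pol v.1) (pol v.2))
    (hdeg : max (pol v.1).natDegree (pol v.2).natDegree = d) (hup : ¬ Up v) :
    {x : OnePoint ℂ | x ∈ JS (Rf v) ∧ ∃ N : ℕ, 1 ≤ N ∧ (Rf v)^[N] x = x}.Infinite := by
  obtain ⟨L, G, φ, K, hL, hG, hGL, hLG, hconj, hK, hGen, hinf⟩ := gen_ch hd hcop hdeg
  obtain ⟨hcop1, hdeg1, hφ⟩ := hconj v hcop hdeg
  have hup1 : ¬ Up (L v) := fun h =>
    hup (up_chart hd hG hGL hLG (fun v h3 h4 => (hconj v h3 h4).2.2) hcop hdeg h)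
  have hN : NNeu (L v) := ⟨hinf, fun p hp x m hc hm => hup1 (up_neu hd hGen hp hc hm)⟩
  have h1 := Pool.Agent.H64.MJ.per_inf hd hGen hN
  have h2 : {x : OnePoint ℂ | ∃ N : ℕ, 1 ≤ N ∧ (Rf v)^[N] x = x}.Infinite := by
    intro hfin
    apply h1
    have h3 : (φ '' {x : OnePoint ℂ | ∃ N : ℕ, 1 ≤ N ∧ (Rf v)^[N] x = x}).Finite := hfin.image φ
    refine (h3.preimage (f := fun z : ℂ => (z : OnePoint ℂ)) OnePoint.coe_injective.injOn).subset ?_
    rintro z ⟨n, hn, hz⟩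
    obtain ⟨y, hy⟩ := φ.surjective (z : OnePoint ℂ)
    refine ⟨y, ⟨n, hn, ?_⟩, hy⟩
    rw [← hy, iter_conj φ hφ] at hz
    exact φ.injective hz
  have h3 := Pool.Agent.H64.MJ.sink_fin hd hcop hdeg
  refine (h2.diff h3).mono ?_
  rintro x ⟨⟨N, hN1, hx⟩, hxs⟩
  refine ⟨?_, N, hN1, hx⟩
  intro hxF
  obtain ⟨z, n, hs, ht⟩ := Pool.Agent.H64.MJ.fs_att hd hcop hdeg hup hxF
  apply hxs
  have h4 : Tendsto (fun k : ℕ => (Rf v)^[n * (N * k)] x) atTop (𝓝 z) :=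
    ht.comp (tendsto_id.const_mul_atTop' (by omega))
  have h5 : ∀ k : ℕ, (Rf v)^[n * (N * k)] x = x := by
    intro k
    have e : n * (N * k) = N * (n * k) := by ring
    rw [e]
    exact per_mul hx _
  simp only [h5] at h4
  have h6 := tendsto_nhds_unique h4 tendsto_const_nhds
  rw [← h6]
  exact ⟨n, hs⟩

/-- four disjoint repelling cycles in the plane -/
theorem cyc4f (hd : 2 ≤ d) (hcop : IsCoprime (pol v.1) (pol v.2))
    (hdeg : max (pol v.1).natDegree (pol v.2).natDegree = d) (hup : ¬ Up v) :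
    ∃ (n : Fin 4 → ℕ) (x : Fin 4 → ℕ → ℂ) (m : Fin 4 → ℂ), (∀ j, 0 < n j) ∧
      (∀ j, Cyc (pol v.1) (pol v.2) (n j) (x j) (m j)) ∧ (∀ j, 1 < ‖m j‖) ∧
      (∀ j, (x j 0 : OnePoint ℂ) ∈ JS (Rf v)) ∧ ∀ i j, i ≠ j → ∀ k < n j, x j k ≠ x i 0 := by
  classical
  have hI := perj_inf hd hcop hdeg hup
  obtain ⟨F, hF⟩ : ∃ F : Set (OnePoint ℂ), F.Finite ∧ ∀ q, q ∉ F → (∃ N : ℕ, 1 ≤ N ∧ (Rf v)^[N] q = q) →
      ∀ i : ℕ, (Rf v)^[i] q ≠ OnePoint.infty := by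
    by_cases hp : ∃ N : ℕ, 1 ≤ N ∧ (Rf v)^[N] OnePoint.infty = OnePoint.infty
    · obtain ⟨N, hN, h⟩ := hp
      refine ⟨Orb (Rf v) OnePoint.infty, orb_fin hN h, ?_⟩
      rintro q hq ⟨M, hM, hq2⟩ i hi
      apply hq
      obtain ⟨j, hj⟩ := orb_back hM hq2 i
      rw [hi] at hj
      exact ⟨j, hj⟩
    · refine ⟨∅, finite_empty, ?_⟩
      rintro q - ⟨M, hM, hq2⟩ i hi
      apply hp
      refine ⟨M, hM, ?_⟩
      rw [← hi, ← Function.iterate_add_apply, Nat.add_comm, Function.iterate_add_apply, hq2]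
  obtain ⟨q, hq1, hq2⟩ := exists_seq_of_forall_finset_exists
    (fun q : OnePoint ℂ => (q ∈ JS (Rf v) ∧ ∃ N : ℕ, 1 ≤ N ∧ (Rf v)^[N] q = q) ∧ q ∉ F)
    (fun x y => y ∉ Orb (Rf v) x) (by
      intro s hs
      have h1 : ((⋃ x ∈ s, Orb (Rf v) x) ∪ F).Finite := by
        refine Set.Finite.union ?_ hF.1
        refine Set.Finite.biUnion s.finite_toSet fun x hx => ?_
        obtain ⟨⟨-, N, hN, hN2⟩, -⟩ := hs x hx
        exact orb_fin hN hN2
      obtain ⟨y, hy1, hy2⟩ := (hI.diff h1).nonempty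
      refine ⟨y, ⟨hy1, fun h => hy2 (Or.inr h)⟩, fun x hx h => hy2 (Or.inl ?_)⟩
      exact mem_iUnion₂.2 ⟨x, hx, h⟩)
  choose N hN hNq using fun i : ℕ => (hq1 i).1.2
  choose x m hx hm hxq using fun i : ℕ => mk_cyc hd hcop hdeg hup (hq1 i).1.1 (hN i) (hNq i)
    (hF.2 _ (hq1 i).2 ⟨N i, hN i, hNq i⟩)
  have hdis : ∀ i j : ℕ, i ≠ j → ∀ k : ℕ, (Rf v)^[k] (q j) ≠ q i := by
    intro i j hij k he
    rcases lt_or_gt_of_ne hij with h | h
    · -- `i < j`: `q j ∉ Orb (q i)`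
      apply hq2 i j h
      obtain ⟨l, hl⟩ := orb_back (hN j) (hNq j) k
      rw [he] at hl
      exact ⟨l, hl⟩
    · exact hq2 j i h ⟨k, he⟩
  refine ⟨fun j => N j, fun j => x j, fun j => m j, fun j => hN j, fun j => hx j, fun j => hm j,
    fun j => ?_, ?_⟩
  · rw [hxq j 0]
    exact (hq1 j).1.1
  · intro i j hij k _ he
    have he' : x (j : ℕ) k = x (i : ℕ) 0 := he
    have h1 := hxq (j : ℕ) k
    have h2 := hxq (i : ℕ) 0
    rw [he', h2] at h1
    exact hdis (i : ℕ) (j : ℕ) (fun h => hij (Fin.ext h)) k h1.symm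

end Pool.Agent.H44.NR
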