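import Pool.Agent.H64.MJ.FSA

/-!
# Module Rng: the Fatou set of a locally maximal map is the union of the attracting basins

PROOF. `fs_att` (H64/MJ/FSA): a Fatou point is attracted. Converse: in the chart of `gen_ch` there are no neutral cycles (`up_neu`), `att_fs'` (H56/RD/AFS).
-/

set_option autoImplicit false

open Filter Topology Polynomial Metric Set MeasureTheory

namespace Pool.Agent.H44.NR

open Pool.Agent.H44.Fatou Pool.Agent.H32.BT Pool.Agent.H79.Eul Pool.Agent.H79.Par
open Pool.Agent.H35.EX Pool.Agent.H44.RR Pool.Agent.H56.HR Pool.Agent.H44.RC Pool.Agent.H47.RJ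
open Pool.Agent.H47.NM Pool.Agent.H47.NN Pool.Agent.H44.ND Pool.Agent.H79.ES Pool.Agent.H44.RG
open Pool.Agent.H44.CP

variable {d : ℕ} {v : E d}

/-- attracted points are in the Fatou set -/
theorem att_in (hd : 2 ≤ d) (hcop : IsCoprime (pol v.1) (pol v.2))
    (hdeg : max (pol v.1).natDegree (pol v.2).natDegree = d) (hup : ¬ Up v) {x : OnePoint ℂ}
    (hx : Att (Rf v) x) : x ∈ FS (Rf v) := by
  by_contra h
  exact na_js hd hcop hdeg hup h hx

/-- the Fatou set of a locally maximal map is the union of the attracting basins -/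
theorem fs_att (hd : 2 ≤ d) (hcop : IsCoprime (pol v.1) (pol v.2))
    (hdeg : max (pol v.1).natDegree (pol v.2).natDegree = d) (hup : ¬ Up v) :
    FS (Rf v) = {x | Att (Rf v) x} := by
  ext x
  exact ⟨fun hx => Pool.Agent.H64.MJ.fs_att hd hcop hdeg hup hx, fun hx => att_in hd hcop hdeg hup hx⟩

end Pool.Agent.H44.NR
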