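import Pool.Agent.H44.NR.Tra
import Pool.Agent.H44.ND.UPN
import Pool.Agent.H79.ES.NNA
import Pool.Agent.H44.CP.PTR
import Pool.Agent.H44.ND.SKC
import Pool.Agent.H32.BT.Stable

/-!
# Module Trp: uniform trapping

PROOFS. `trap1`: `y` is attracted by the sink `z` of period `n` of `Rf v0`, `B` is an open set which contains the orbit of `y` and the orbit of `z` (all times `≥ 0`). `sink_stable` (H32/BT/Stable): there is a closed neighbourhood `T` of `z` with `(Rf v0)^[j] '' T ⊆ B` for all `j` (use a neighbourhood `V` of `z` with `f^i(V) ⊆ B` for `i < n`, and `f^(n k)(T) ⊆ V`), and `K0 ≥ 1` with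
`(Rf v0)^[n K0] '' T ⊆ interior T` (uniform attraction on a compact neighbourhood: `unif`, H84/BR/Trp, or `hUt` and stability; shrink `T`). For `v` near `v0` (joint continuity of `(v, x) ↦ (Rf v)^[j] x` at `v0`: look for it in H32/BT/Stable, H79/Par/AttGood, H44/RR (e.g. `rf_cont`, `rat_joint`), compactness of `T`): `(Rf v)^[j] '' T ⊆ B` for `j ≤ n K0`
and `(Rf v)^[n K0] '' T ⊆ T`, so `(Rf v)^[j] '' T ⊆ B` for all `j`. There is `m` with `(Rf v0)^[n m] y ∈ interior T`: for `v` near `v0` and `y'` near `y`: `(Rf v)^[i] y' ∈ B` for `i ≤ n m` and `(Rf v)^[n m] y' ∈ T`.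
`ac_near`: critical points of `v` near `v0` are near critical points of `v0` (the set of pairs `(v, c)` with `c` critical is closed: a limit of critical points is critical; look for `crit_usc`, `crit_lim` in H79/ES, H44/RR, or prove it with `crit_coe`, `crit_of_wr` in a chart); a critical point of `v` near a non attracted critical point of `v0` is not attracted
because `NA v ≤ NA v0` for `v` near `v0` (`¬ Up`) and `na_up` (H79/ES/NNA). `trp`: `W1` from `att_pers` at `b`; if `(Rf v)^[n] c ∈ W1` then `c` is attracted (`att_iter`), so near an attracted critical point `c0` of `v0` (`ac_near`, finitely many); `trap1` with `B = (closed small neighbourhood W2 of b)ᶜ`: `b` is not on the orbit of `c0` (`hbP`, `hbc`) and not on the orbit of the sink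
(which is in `PC (Rf v0)`, closed and forward invariant, being the limit of the orbit of `c0`). `W = W1 ∩ W2`.
-/

set_option autoImplicit false

open Filter Topology Polynomial Metric Set

namespace Pool.Agent.H44.NR

open Pool.Agent.H44.Fatou Pool.Agent.H32.BT Pool.Agent.H79.Eul Pool.Agent.H79.Par
open Pool.Agent.H35.EX Pool.Agent.H44.RR Pool.Agent.H79.ES Pool.Agent.H44.ND Pool.Agent.H44.CP

variable {d : ℕ} {v0 : E d}

theorem ac_near (hd : 2 ≤ d) (hcop : IsCoprime (pol v0.1) (pol v0.2))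
    (hdeg : max (pol v0.1).natDegree (pol v0.2).natDegree = d) (hup : ¬ Up v0)
    {W : Set (OnePoint ℂ)} (hW : IsOpen W) (hWA : ∀ c, IsCrit (Rf v0) c → Att (Rf v0) c → c ∈ W) :
    ∀ᶠ v in 𝓝 v0, ∀ c, IsCrit (Rf v) c → Att (Rf v) c → c ∈ W := by
  have hK : IsCompact Wᶜ := hW.isClosed_compl.isCompact
  have hup' : ∀ᶠ v in 𝓝 v0, IsCoprime (pol v.1) (pol v.2) →
      max (pol v.1).natDegree (pol v.2).natDegree = d → NA v < NA v0 + 1 := by
    unfold Up at hup
    push Not at hup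
    obtain ⟨ε, hε, h⟩ := hup
    exact Metric.eventually_nhds_iff_ball.2 ⟨ε, hε, fun v hv h1 h2 => h v hv h1 h2⟩
  have key : ∀ c0 ∈ Wᶜ, ∃ N ∈ 𝓝 c0, ∀ᶠ v in 𝓝 v0, ∀ c ∈ N, ¬ (IsCrit (Rf v) c ∧ Att (Rf v) c) := by
    intro c0 hc0
    by_cases hcr : IsCrit (Rf v0) c0
    · have hna : ¬ Att (Rf v0) c0 := fun h => hc0 (hWA c0 hcr h)
      obtain ⟨ε, hε, h1⟩ := na_up hd hcop hdeg hna
      refine ⟨{y | chord c0 y < ε}, Pool.Agent.H47.RJ.ch_ball c0 hε, ?_⟩
      filter_upwards [hup', cop_near hcop hdeg (by omega), Metric.ball_mem_nhds v0 hε] with v h2 h3 h4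
      rintro c hc ⟨h5, h6⟩
      have h7 := h1 v h4 c hc h5 h6
      have h8 := h2 h3.1 h3.2
      omega
    · obtain ⟨N, hN, h1⟩ := Pool.Agent.H44.ND.crit_near hd hcop hdeg hcr
      refine ⟨N, hN, ?_⟩
      filter_upwards [h1] with v h2 c hc h3
      exact h2 c hc h3.1
  have h := hK.induction_on (p := fun s => ∀ᶠ v in 𝓝 v0, ∀ c ∈ s, ¬ (IsCrit (Rf v) c ∧ Att (Rf v) c))
    (Filter.Eventually.of_forall fun v c hc => hc.elim)
    (fun s t hst ht => ht.mono fun v h1 c hc => h1 c (hst hc))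
    (fun s t hs ht => (hs.and ht).mono fun v h1 c hc => hc.elim (h1.1 c) (h1.2 c))
    (fun x hx => by
      obtain ⟨N, hN, h1⟩ := key x hx
      exact ⟨N, mem_nhdsWithin_of_mem_nhds hN, h1⟩)
  filter_upwards [h] with v h1 c hc1 hc2
  by_contra hcW
  exact h1 c hcW ⟨hc1, hc2⟩

/-- critical orbits of the maps near a locally maximal map stay away from an attracted point off the critical orbits -/
theorem trp (hd : 2 ≤ d) (hcop : IsCoprime (pol v0.1) (pol v0.2))
    (hdeg : max (pol v0.1).natDegree (pol v0.2).natDegree = d) (hup : ¬ Up v0) {b : OnePoint ℂ}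
    (hb : Att (Rf v0) b) (hbP : b ∉ PC (Rf v0)) (hbc : ¬ IsCrit (Rf v0) b) :
    ∃ W ∈ 𝓝 b, ∀ᶠ v in 𝓝 v0, ∀ c, IsCrit (Rf v) c → ∀ n : ℕ, (Rf v)^[n] c ∉ W := by
  have hf : Continuous (Rf v0) := rat_continuous hcop
  have hfin : {c | IsCrit (Rf v0) c}.Finite := crit_finite hcop (by rw [hdeg]; omega)
  obtain ⟨W1, hW1, hA⟩ := att_pers hd hcop hdeg hb
  -- a closed neighbourhood of `b`
  have hXc : IsClosed (PC (Rf v0) ∪ {c | IsCrit (Rf v0) c}) := by
    refine IsClosed.union ?_ hfin.isClosed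
    unfold PC
    exact isClosed_closure
  have hXb : b ∉ PC (Rf v0) ∪ {c | IsCrit (Rf v0) c} := by
    rintro (h | h)
    · exact hbP h
    · exact hbc h
  obtain ⟨W2, ⟨hW2, hW2c⟩, hW2X⟩ := (closed_nhds_basis b).mem_iff.1 (hXc.isOpen_compl.mem_nhds hXb)
  have hX2 : ∀ x ∈ PC (Rf v0) ∪ {c | IsCrit (Rf v0) c}, x ∈ W2ᶜ := fun x hx h => hW2X h hx
  have key : ∀ c0 : OnePoint ℂ, ∃ W ∈ 𝓝 c0, IsCrit (Rf v0) c0 → Att (Rf v0) c0 →
      ∀ᶠ v in 𝓝 v0, ∀ x ∈ W, ∀ j : ℕ, (Rf v)^[j] x ∈ W2ᶜ := by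
    intro c0
    by_cases h0 : IsCrit (Rf v0) c0 ∧ Att (Rf v0) c0
    · obtain ⟨h1, z, n, hz, ht⟩ := h0
      have hPC : ∀ j : ℕ, 1 ≤ j → (Rf v0)^[j] c0 ∈ PC (Rf v0) := by
        intro j hj
        unfold PC
        exact subset_closure ⟨c0, h1, j, hj, rfl⟩
      have hzj : ∀ j : ℕ, (Rf v0)^[j] z ∈ PC (Rf v0) := by
        intro j
        have h3 : Tendsto (fun k : ℕ => (Rf v0)^[n * k + j] c0) atTop (𝓝 ((Rf v0)^[j] z)) := by
          have h4 := ((hf.iterate j).tendsto z).comp ht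
          refine h4.congr fun k => ?_
          rw [Nat.add_comm, Function.iterate_add_apply]
          rfl
        have h5 : IsClosed (PC (Rf v0)) := by
          unfold PC
          exact isClosed_closure
        refine h5.mem_of_tendsto h3 ?_
        filter_upwards [eventually_ge_atTop 1] with k hk
        refine hPC _ ?_
        have h6 : 1 ≤ n * k := Nat.one_le_iff_ne_zero.2 (Nat.mul_ne_zero (by have := hz.1; omega) (by omega))
        omega
      obtain ⟨W, hW, h6⟩ := trap1 hd hcop hdeg hz ht (B := W2ᶜ) hW2c.isOpen_compl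
        (fun j => by
          rcases Nat.eq_zero_or_pos j with rfl | hj
          · exact hX2 _ (Or.inr h1)
          · exact hX2 _ (Or.inl (hPC j hj)))
        (fun j => hX2 _ (Or.inl (hzj j)))
      exact ⟨W, hW, fun _ _ => h6⟩
    · exact ⟨Set.univ, Filter.univ_mem, fun h1 h2 => absurd ⟨h1, h2⟩ h0⟩
  choose N hN hNv using key
  obtain ⟨A, hA'⟩ : ∃ A, A = {c | IsCrit (Rf v0) c ∧ Att (Rf v0) c} := ⟨_, rfl⟩
  have hAfin : A.Finite := by
    rw [hA']
    exact hfin.subset fun c hc => hc.1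
  have h1 : ∀ᶠ v in 𝓝 v0, ∀ c0 ∈ A, ∀ x ∈ N c0, ∀ j : ℕ, (Rf v)^[j] x ∈ W2ᶜ := by
    rw [Filter.eventually_all_finite hAfin]
    intro c0 hc0
    rw [hA'] at hc0
    exact hNv c0 hc0.1 hc0.2
  have h2 := ac_near hd hcop hdeg hup (W := ⋃ c0 ∈ A, interior (N c0))
    (isOpen_biUnion fun c0 _ => isOpen_interior) (fun c hc1 hc2 => by
      refine mem_biUnion (x := c) (by rw [hA']; exact ⟨hc1, hc2⟩) ?_
      exact mem_interior_iff_mem_nhds.2 (hN c))
  refine ⟨W1 ∩ W2, Filter.inter_mem hW1 hW2, ?_⟩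
  filter_upwards [h1, h2, hA, cop_near hcop hdeg (by omega)] with v h3 h4 h5 h6
  rintro c hc n ⟨h7, h8⟩
  have h9 : Att (Rf v) c := by
    have h10 := h5 _ h7
    have hcf : Continuous (Rf v) := rat_continuous h6.1
    exact (Pool.Agent.H32.BT.att_iter hcf c n).1 h10
  have h11 := h4 c hc h9
  obtain ⟨c0, hc0, h12⟩ := mem_iUnion₂.1 h11
  exact h3 c0 hc0 c (interior_subset h12) n h8

end Pool.Agent.H44.NR
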