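import Pool.Agent.H44.NR.Vlf
import Pool.Agent.H44.NR.Trp
import Pool.Agent.H44.NR.Rng
import Pool.Agent.H44.NR.Cyf
import Pool.Agent.H64.MJ.CJS

/-!
# Module Bdf: bounded velocities of the preimages of a Fatou point

PROOF. `hb`: `Att (Rf v0) b` by `fs_att` (H44/NR/Rng). `X t = b + t * β`. `cyc4f` (H44/NR/Cyf): repelling cycles, moved by `cyc_mv`: three marked points `Q j`. `BD v0 w r (Q j) X`: `cop`, `deg`, `qan` from `nup_near`, `cyc_mv`; `nq`: `X t` is attracted for `Rf (v0 + t • w)`, `t` small (`att_pers` at `b`), and `Q j t` is not: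
it is on a repelling cycle (persistence of the multiplier), so in the Julia set (`cyc_js`), so not attracted (`na_js`), and neither are its iterates; `nc`: `trp` (H44/NR/Trp) at `b`. Then `vel_fat`.
-/

set_option autoImplicit false

open Filter Topology Polynomial Metric Set

namespace Pool.Agent.H44.NR

open Pool.Agent.H44.Fatou Pool.Agent.H32.BT Pool.Agent.H79.Eul Pool.Agent.H79.Par Pool.Agent.H61.TT
open Pool.Agent.H35.EX Pool.Agent.H44.RR Pool.Agent.H56.HR Pool.Agent.H44.RC Pool.Agent.H47.RJ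
open Pool.Agent.H79.ES Pool.Agent.H44.ND Pool.Agent.H44.CP Pool.Agent.H64.PC Pool.Agent.H47.NN
open Pool.Agent.H44.NP

variable {d : ℕ} {v0 : E d}

theorem vfat (hd : 2 ≤ d) (hcop : IsCoprime (pol v0.1) (pol v0.2))
    (hdeg : max (pol v0.1).natDegree (pol v0.2).natDegree = d) (hup : ¬ Up v0) {b : ℂ}
    (hb : (b : OnePoint ℂ) ∈ FS (Rf v0)) (hbP : (b : OnePoint ℂ) ∉ PC (Rf v0))
    (hbc : ¬ IsCrit (Rf v0) (b : OnePoint ℂ)) (w : E d) (β : ℂ) :
    ∃ C : ℝ, ∀ (k : ℕ) (z : ℕ → ℂ),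
      (∀ i < k, (pol v0.2).eval (z i) ≠ 0 ∧ z (i + 1) = gg (pol v0.1) (pol v0.2) (z i)) → z k = b →
      ∃ u : ℕ → ℂ, u k = β ∧ (∀ i < k, u (i + 1) = Pool.Agent.H61.TT.dg (pol v0.1) (pol v0.2) (z i) * u i +
        xi v0 w (z i)) ∧ ∀ i ≤ k, ‖u i‖ ≤ C * (1 + ‖z i‖ ^ 2) := by
  obtain ⟨n, x, m, hn, hx, hm, -, hne⟩ := cyc4f hd hcop hdeg hup
  have hb1 : Att (Rf v0) (b : OnePoint ℂ) := by
    rw [fs_att hd hcop hdeg hup] at hb
    exact hb
  obtain ⟨W1, hW1, hA⟩ := att_pers hd hcop hdeg hb1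
  obtain ⟨W2, hW2, hC⟩ := trp hd hcop hdeg hup hb1 hbP hbc
  have hm1 : ∀ j, m j ≠ 1 := by
    intro j h1
    have h2 := hm j
    rw [h1, norm_one] at h2
    exact lt_irrefl _ h2
  choose Y hY0 hY using fun j => cyc_mv w (hx j) (hm1 j)
  have hYc : ∀ j, ContinuousAt (Y j) 0 := fun j => (hY j).self_of_nhds.1.continuousAt
  -- the maps near `v0`
  have hlim : Tendsto (fun t : ℂ => v0 + t • w) (𝓝 0) (𝓝 v0) := by
    have h2 : Continuous fun t : ℂ => v0 + t • w := by fun_prop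
    have h3 := h2.tendsto 0
    rwa [zero_smul, add_zero] at h3
  have hnear := hlim.eventually (nup_near hd hcop hdeg hup)
  have hA' := hlim.eventually hA
  have hC' := hlim.eventually hC
  -- the multipliers
  have hmu : ∀ j, ∀ᶠ t in 𝓝 (0 : ℂ), 1 < ‖mu (n j) (v0 + t • w, Y j t)‖ := by
    intro j
    obtain ⟨h1, h2, h3⟩ := cyc_wi (hx j)
    have h4 := (mu_an (n j) h1).continuousAt.tendsto
    rw [h3] at h4
    have h5 : Tendsto (fun t : ℂ => ((v0 + t • w, Y j t) : E d × ℂ)) (𝓝 0) (𝓝 (v0, x j 0)) := by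
      have h6 := hlim.prodMk_nhds (hYc j)
      rwa [hY0] at h6
    exact (h4.comp h5).norm.eventually (lt_mem_nhds (hm j))
  have hYne : ∀ i j, i ≠ j → ∀ᶠ t in 𝓝 (0 : ℂ), Y i t ≠ Y j t := by
    intro i j hij
    have h1 : Tendsto (fun t => Y i t - Y j t) (𝓝 0) (𝓝 (Y i 0 - Y j 0)) := (hYc i).sub (hYc j)
    have h2 : Y i 0 - Y j 0 ≠ 0 := by
      rw [hY0, hY0]
      exact sub_ne_zero.2 (hne j i hij.symm 0 (hn i))
    filter_upwards [h1.eventually_ne h2] with t ht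
    exact sub_ne_zero.1 ht
  -- the target
  obtain ⟨X, hX⟩ : ∃ X : ℂ → ℂ, X = fun t => b + t * β := ⟨_, rfl⟩
  have hX0 : X 0 = b := by rw [hX]; ring
  have hXa : ∀ t, AnalyticAt ℂ X t := by
    intro t
    rw [hX]
    exact analyticAt_const.add (analyticAt_id.mul analyticAt_const)
  have hXd : HasDerivAt X β 0 := by
    rw [hX]
    have h1 := ((hasDerivAt_id (0 : ℂ)).mul_const β).const_add b
    rw [one_mul] at h1
    exact h1
  have hXl : Tendsto (fun t => (X t : OnePoint ℂ)) (𝓝 0) (𝓝 (b : OnePoint ℂ)) := by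
    have h1 := (OnePoint.continuous_coe.tendsto (X 0)).comp (hXa 0).continuousAt.tendsto
    rw [hX0] at h1
    exact h1
  have hall : ∀ᶠ t in 𝓝 (0 : ℂ), (∀ j, AnalyticAt ℂ (Y j) t ∧
      (v0 + t • w, Y j t) ∈ (Gp (n j) : Set (E d × ℂ)) ∧ wi (n j) (v0 + t • w, Y j t) = Y j t) ∧
      ((IsCoprime (pol (v0 + t • w).1) (pol (v0 + t • w).2) ∧
        max (pol (v0 + t • w).1).natDegree (pol (v0 + t • w).2).natDegree = d) ∧ ¬ Up (v0 + t • w)) ∧
      (∀ j, 1 < ‖mu (n j) (v0 + t • w, Y j t)‖) ∧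
      (∀ z ∈ W1, Att (Rf (v0 + t • w)) z) ∧
      (∀ c, IsCrit (Rf (v0 + t • w)) c → ∀ k : ℕ, (Rf (v0 + t • w))^[k] c ∉ W2) ∧
      (X t : OnePoint ℂ) ∈ W1 ∧ (X t : OnePoint ℂ) ∈ W2 ∧
      ∀ i j, i ≠ j → Y i t ≠ Y j t := by
    refine Filter.Eventually.and ?_ (hnear.and (Filter.Eventually.and ?_ (hA'.and (hC'.and
      ((hXl.eventually hW1).and ((hXl.eventually hW2).and ?_))))))
    · rw [Filter.eventually_all]
      exact hY
    · rw [Filter.eventually_all]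
      exact hmu
    · rw [Filter.eventually_all]
      intro i
      rw [Filter.eventually_all]
      intro j
      by_cases hij : i = j
      · exact Filter.Eventually.of_forall fun t h => absurd hij h
      · filter_upwards [hYne i j hij] with t ht _
        exact ht
  obtain ⟨ε, hε, hball⟩ := Metric.eventually_nhds_iff_ball.1 hall
  have hin : ∀ t : ℂ, ‖t‖ ≤ ε / 2 → t ∈ ball (0 : ℂ) ε := fun t ht =>
    mem_ball_zero_iff.2 (by linarith)
  obtain ⟨Q, hQ⟩ : ∃ Q : Fin 3 → ℂ → ℂ, Q = fun j => Y j.castSucc := ⟨_, rfl⟩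
  have hbd : ∀ j, BD v0 w (ε / 2) (Q j) X := by
    intro j
    rw [hQ]
    refine ⟨by linarith, fun t ht => ?_, fun t ht => ?_, fun t ht => ?_, fun t ht => hXa t,
      fun t ht k hk => ?_, fun t ht c hcr k hk => ?_⟩
    · exact (hball t (hin t ht)).2.1.1.1
    · exact (hball t (hin t ht)).2.1.1.2
    · exact ((hball t (hin t ht)).1 j.castSucc).1
    · obtain ⟨h1, ⟨⟨h2, h2'⟩, h3⟩, h4, h5, -, h6, -, -⟩ := hball t (hin t ht)
      obtain ⟨h7, h8, h9⟩ := h1 j.castSucc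
      have h10 := h5 _ h6
      rw [← hk] at h10
      have hcf : Continuous (Rf (v0 + t • w)) := rat_continuous h2
      replace h10 := (Pool.Agent.H32.BT.att_iter hcf _ k).1 h10
      have h11 := Pool.Agent.H64.MJ.cyc_js h2 (hn j.castSucc) (wi_cyc h8 h9) (h4 j.castSucc)
      exact na_js hd h2 h2' h3 h11 h10
    · obtain ⟨-, -, -, -, h5, -, h6, -⟩ := hball t (hin t ht)
      exact h5 c hcr k (hk ▸ h6)
  obtain ⟨C, hC⟩ := vel_fat hbd (fun i j hij t ht => by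
    rw [hQ]
    refine (hball t (hin t ht)).2.2.2.2.2.2.2 _ _ fun h => hij ?_
    exact Fin.castSucc_injective _ h) hXd
  refine ⟨C, fun k z hz hzk => hC k z hz ?_⟩
  rw [hX0]
  exact hzk

end Pool.Agent.H44.NR
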