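import Pool.Agent.H44.NR.Dsa
import Pool.Agent.H44.NR.Bdf
import Pool.Agent.H31.PP.Geo
import Pool.Agent.H31.PP.Wnd

/-!
# Module Dis: THEOREM P+ when the Fatou set is not empty

`mkr_fat`: the points of the Fatou set which are not critical and not post-critical are markers. `dis_core`: the contradiction in a chart with `0, 1, ∞` in a trap (`pp_core` with wandering discs). `pp_dis`: the reduction: `PA` is the image of the post-critical set and the trap, `K1` is the image of `P1 ∩ J`; `PC ∩ FS` is closed.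
-/

set_option autoImplicit false

open Filter Topology Polynomial Metric Set MeasureTheory

namespace Pool.Agent.H44.NR

open Pool.Agent.H44.Fatou Pool.Agent.H32.BT Pool.Agent.H79.Eul Pool.Agent.H79.Par
open Pool.Agent.H35.EX Pool.Agent.H44.RR Pool.Agent.H56.HR Pool.Agent.H44.RC Pool.Agent.H47.RJ
open Pool.Agent.H47.NM Pool.Agent.H47.NN Pool.Agent.H44.ND Pool.Agent.H79.ES Pool.Agent.H44.RG
open Pool.Agent.H44.CP Pool.Agent.H47.PS Pool.Agent.H80.AJ
open Pool.Agent.H31.PP (SS Mkr pp_core dsc_wan ud_empty VM)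

variable {d : ℕ} {v : E d}

/-- markers in the Fatou set -/
theorem mkr_fat (hd : 2 ≤ d) (hcop : IsCoprime (pol v.1) (pol v.2))
    (hdeg : max (pol v.1).natDegree (pol v.2).natDegree = d) (hup : ¬ Up v) {K1 : Set ℂ}
    (hK : IsCompact K1) (hKJ : ∀ z ∈ K1, (z : OnePoint ℂ) ∈ JS (Rf v)) {b : ℂ}
    (hb : (b : OnePoint ℂ) ∈ FS (Rf v)) (hbP : (b : OnePoint ℂ) ∉ PC (Rf v))
    (hbc : ¬ IsCrit (Rf v) (b : OnePoint ℂ)) : Mkr v K1 b := by
  refine ⟨?_, ?_⟩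
  · obtain ⟨F, hF1, hF2, hF3⟩ := orb_cl hd hcop hdeg (Pool.Agent.H64.MJ.fs_att hd hcop hdeg hup hb)
    have hFc : IsClosed ((fun z : ℂ => (z : OnePoint ℂ)) ⁻¹' F) := hF1.preimage OnePoint.continuous_coe
    have hdis : Disjoint K1 ((fun z : ℂ => (z : OnePoint ℂ)) ⁻¹' F) := by
      rw [Set.disjoint_left]
      intro z hz1 hz2
      exact hKJ z hz1 (att_in hd hcop hdeg hup (hF2 _ hz2))
    obtain ⟨η, hη, h⟩ := hdis.exists_thickenings hK hFc
    refine ⟨η, hη, ?_⟩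
    intro n u hu he
    have h1 : u ∈ (fun z : ℂ => (z : OnePoint ℂ)) ⁻¹' F := by
      show (u : OnePoint ℂ) ∈ F
      rw [← he]
      exact hF3 n
    exact Set.disjoint_left.1 h hu (self_subset_thickening hη _ h1)
  · intro T _ w Ξ _
    obtain ⟨C, hC⟩ := vfat hd hcop hdeg hup hb hbP hbc w (Ξ b)
    refine ⟨C, fun k z hz hzk => ?_⟩
    obtain ⟨u, h1, h2, h3⟩ := hC k z hz hzk
    exact ⟨u, h1, h2, h3 0 (Nat.zero_le k)⟩

theorem pc_sub {PA : Set (OnePoint ℂ)} (sys : Sys0 (pol v.1) (pol v.2) PA) : PC (Rf v) ⊆ PA := by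
  unfold PC
  refine closure_minimal ?_ sys.closed
  rintro y ⟨c, hc, n, hn, rfl⟩
  obtain ⟨m, rfl⟩ : ∃ m, n = m + 1 := ⟨n - 1, by omega⟩
  clear hn
  induction m with
  | zero => exact sys.crit c hc
  | succ m ih =>
    rw [Function.iterate_succ_apply']
    exact sys.inv _ ih

theorem dis_core (hd : 2 ≤ d) (hcop : IsCoprime (pol v.1) (pol v.2))
    (hdeg : max (pol v.1).natDegree (pol v.2).natDegree = d) (hup : ¬ Up v)
    {PA : Set (OnePoint ℂ)} (sys : Sys0 (pol v.1) (pol v.2) PA)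
    (z0 : ((0 : ℂ) : OnePoint ℂ) ∈ PA) (z1 : ((1 : ℂ) : OnePoint ℂ) ∈ PA)
    (f0 : ((0 : ℂ) : OnePoint ℂ) ∈ FS (Rf v)) (f1 : ((1 : ℂ) : OnePoint ℂ) ∈ FS (Rf v))
    (fi : OnePoint.infty ∈ FS (Rf v)) {c : ℂ} (hc : IsCrit (Rf v) (c : OnePoint ℂ))
    (hcJ : (c : OnePoint ℂ) ∈ JS (Rf v)) {P1 : Set (OnePoint ℂ)} (hP1 : IsClosed P1)
    (hPJ : P1 ⊆ JS (Rf v)) (hcP : (c : OnePoint ℂ) ∈ P1) (hsep : IsClosed (PA \ P1))
    (hv : ∀ n : ℕ, 1 ≤ n → (Rf v)^[n] (c : OnePoint ℂ) ∉ P1) : False := by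
  have hrd : Pool.Agent.H61.TT.RatD d (pol v.1) (pol v.2) := ⟨hd, hcop, hdeg⟩
  have hjs : ∀ (n : ℕ) (x : OnePoint ℂ), x ∈ JS (Rf v) → (Rf v)^[n] x ∈ JS (Rf v) :=
    fun n x hx h => hx ((fs_iff (by omega) hcop hdeg n x).1 h)
  -- the compact set
  obtain ⟨K1, hK1⟩ : ∃ K1 : Set ℂ, K1 = (fun z : ℂ => (z : OnePoint ℂ)) ⁻¹' P1 := ⟨_, rfl⟩
  have hKm : ∀ z, z ∈ K1 ↔ (z : OnePoint ℂ) ∈ P1 := by
    intro z
    rw [hK1]
    rfl
  have hKi : (fun z : ℂ => (z : OnePoint ℂ)) '' K1 = P1 := by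
    ext x
    constructor
    · rintro ⟨z, hz, rfl⟩
      exact (hKm z).1 hz
    · intro hx
      have hxi : x ≠ OnePoint.infty := by
        rintro rfl
        exact hPJ hx fi
      obtain ⟨z, rfl⟩ := OnePoint.ne_infty_iff_exists.1 hxi
      exact ⟨z, (hKm z).2 hx, rfl⟩
  have hKc : IsCompact K1 := by
    have h1 : IsOpen ((fun z : ℂ => (z : OnePoint ℂ)) '' K1)ᶜ := by
      rw [hKi]
      exact hP1.isOpen_compl
    exact (OnePoint.isOpen_compl_image_coe.1 h1).2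
  have hKJ : ∀ z ∈ K1, (z : OnePoint ℂ) ∈ JS (Rf v) := fun z hz => hPJ ((hKm z).1 hz)
  -- the critical value
  have hfcJ : (Rf v) (c : OnePoint ℂ) ∈ JS (Rf v) := hjs 1 _ hcJ
  have hqc : (pol v.2).eval c ≠ 0 := by
    intro h0
    apply hfcJ
    have h1 : (Rf v) (c : OnePoint ℂ) = OnePoint.infty := by
      unfold Rf
      rw [rat_coe, h0]
      unfold pt
      rw [if_pos rfl]
    rw [h1]
    exact fi
  have hgg : ((Pool.Agent.H61.TT.gg (pol v.1) (pol v.2) c : ℂ) : OnePoint ℂ) =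
      (Rf v) (c : OnePoint ℂ) := by
    unfold Rf
    rw [rat_coe_of_ne hqc]
    rfl
  have hpre := not_pre hd hcop hdeg hup hc hcJ
  have hjp := Pool.Agent.H1.PU.jp_of hrd hcJ
  have hcr : {x : OnePoint ℂ | IsCrit (Rf v) x}.Countable :=
    (crit_finite hcop (by rw [hdeg]; omega)).countable
  have hFne : (FS (Rf v)).Nonempty := ⟨_, fi⟩
  have hKp := Pool.Agent.H80.AJ.KK_pos
  refine pp_core (v := v) (PA := PA) (c := c) (K1 := K1) hrd sys z0 z1
    ⟨crit_coe hc, hpre, ?_, ?_, ?_⟩ ?_ hKc ((hKm c).2 hcP) ?_ ?_ ?_ ?_ ?_ ?_ ?_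
  · intro h0
    rw [h0] at hgg
    rw [← hgg] at hfcJ
    exact hfcJ f0
  · intro h0
    rw [h0] at hgg
    rw [← hgg] at hfcJ
    exact hfcJ f1
  · intro m n h
    apply hjs m _ hcJ
    show (Rf v)^[m] (c : OnePoint ℂ) ∈ FS (Rf v)
    have h1 : (Rf v)^[m] (c : OnePoint ℂ) = (Rf v)^[n] OnePoint.infty := h
    rw [h1]
    exact (fs_iff (by omega) hcop hdeg n _).2 fi
  · rw [hgg]
    exact sys.crit _ hc
  · rw [hKi]
    exact hsep
  · intro h
    exact hKJ 0 h f0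
  · intro h
    exact hKJ 1 h f1
  · intro n u hu he
    apply hv (n + 1) (by omega)
    rw [Function.iterate_succ_apply, ← hgg]
    have h1 : (Rf v)^[n] ((Pool.Agent.H61.TT.gg (pol v.1) (pol v.2) c : ℂ) : OnePoint ℂ) =
      (u : OnePoint ℂ) := he
    rw [h1]
    exact (hKm u).1 hu
  · intro ε hε
    obtain ⟨m, u, hu, hum⟩ := hjp.tr (Pool.Agent.H61.TT.gg (pol v.1) (pol v.2) c)
      (by rw [hgg]; exact hfcJ) _ hcJ ε hε
    exact ⟨u, mem_ball_iff_norm.1 hu, m, hum⟩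
  · intro ζ hζ _ ε hε
    obtain ⟨r, hr, hoff⟩ := exists_off sys.closed hζ
    have hr' : 0 < min ε r := lt_min hε hr
    obtain ⟨b, hb1, hb2, hb3⟩ := fs_avoid hd hcop hdeg hFne ζ hr' hcr
    refine ⟨b, mem_ball_iff_norm.1 (ball_subset_ball (min_le_left _ _) hb1),
      mkr_fat hd hcop hdeg hup hKc hKJ hb2 ?_ hb3⟩
    intro h
    have h1 := pc_sub sys h
    refine hoff b ?_ h1
    refine ball_subset_ball ?_ hb1
    refine (min_le_right ε r).trans ?_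
    linarith
  · intro T hT hKT hTPA
    refine ⟨∅, ∅, fun _ _ => 0, ud_empty d _ _ _ _, ?_⟩
    intro x hxT hxP hxK
    obtain ⟨r2, hr2, hoff⟩ := exists_off sys.closed hxP
    obtain ⟨r1, hr1, hball⟩ := Metric.isOpen_iff.1 hT x hxT
    have hxc : 0 < ‖c - x‖ := by
      rw [norm_pos_iff, sub_ne_zero]
      rintro rfl
      exact hxK ((hKm c).2 hcP)
    obtain ⟨s, hs⟩ : ∃ s : ℝ, s = min (min r1 ‖c - x‖ / 8) (r2 / (131072 * Pool.Agent.H80.AJ.KK)) :=
      ⟨_, rfl⟩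
    have hs0 : 0 < s := by
      rw [hs]
      refine lt_min ?_ ?_
      · have := lt_min hr1 hxc
        positivity
      · positivity
    have hs1 : 8 * s ≤ r1 := by
      have h1 : s ≤ min r1 ‖c - x‖ / 8 := by rw [hs]; exact min_le_left _ _
      have h2 := min_le_left r1 ‖c - x‖
      linarith
    have hs2 : 8 * s ≤ ‖c - x‖ := by
      have h1 : s ≤ min r1 ‖c - x‖ / 8 := by rw [hs]; exact min_le_left _ _
      have h2 := min_le_right r1 ‖c - x‖
      linarith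
    have hrho : Pool.Agent.H1.PU.rho s ≤ r2 := by
      unfold Pool.Agent.H1.PU.rho
      have h1 : s ≤ r2 / (131072 * Pool.Agent.H80.AJ.KK) := by rw [hs]; exact min_le_right _ _
      rw [le_div_iff₀ (by positivity)] at h1
      linarith
    have hps : Pool.Agent.H42.PP.PS0 d (pol v.1) (pol v.2) PA x s := by
      refine ⟨sys, hrd, z0, z1, hs0, ?_⟩
      intro u hu
      refine hoff u (ball_subset_ball ?_ hu)
      refine hrho.trans ?_
      linarith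
    obtain ⟨y, hy1, hy2, hy3⟩ := fs_avoid hd hcop hdeg hFne x (half_pos hs0) (per_cnt hd hcop hdeg)
    obtain ⟨r, hr, hrs, hw⟩ := wan_ex hd hcop hdeg hup hy2
      (fun n hn h => hy3 ⟨n, hn, h⟩) (half_pos hs0)
    have hsub : ball y r ⊆ ball x s := by
      intro z hz
      rw [mem_ball] at hz hy1 ⊢
      linarith [dist_triangle z y x]
    refine ⟨s, dsc_wan hps hr hsub hw ?_ ?_⟩
    · exact (ball_subset_ball hs1).trans hball
    · rw [mem_ball, dist_eq_norm]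
      exact not_lt.2 hs2

/-- THEOREM P+ when the Fatou set is not empty -/
theorem pp_dis (hd : 2 ≤ d) (hcop : IsCoprime (pol v.1) (pol v.2))
    (hdeg : max (pol v.1).natDegree (pol v.2).natDegree = d) (hup : ¬ Up v)
    (hF : (FS (Rf v)).Nonempty) {c : OnePoint ℂ} (hc : IsCrit (Rf v) c) (hcJ : c ∈ JS (Rf v))
    {P1 P2 : Set (OnePoint ℂ)} (h1 : IsClosed P1) (h2 : IsClosed P2)
    (hU : P1 ∪ P2 = PC (Rf v) ∪ {c}) (hdis : Disjoint P1 P2) (hcP : c ∈ P1)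
    (hv : ∀ n : ℕ, 1 ≤ n → (Rf v)^[n] c ∈ P2) : False := by
  obtain ⟨x0, hx0⟩ := hF
  obtain ⟨z, n, hs, -⟩ := Pool.Agent.H64.MJ.fs_att hd hcop hdeg hup hx0
  obtain ⟨A, hA, hz⟩ := Pool.Agent.H84.BR.trap_of_sink hcop (by rw [hdeg]; exact hd) hs
  have hAF : A ⊆ FS (Rf v) := fun x hx => att_in hd hcop hdeg hup (hA.att x hx)
  have hinf : (interior A).Infinite := infinite_of_mem_nhds z (isOpen_interior.mem_nhds hz)
  obtain ⟨p, hp⟩ : ∃ p : ℕ → OnePoint ℂ, p = fun i => (hinf.natEmbedding _ i : OnePoint ℂ) :=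
    ⟨_, rfl⟩
  have hpi : ∀ i, p i ∈ interior A := by
    intro i
    rw [hp]
    exact (hinf.natEmbedding _ i).2
  have hpn : ∀ i j, i ≠ j → p i ≠ p j := by
    intro i j hij h
    rw [hp] at h
    exact hij ((hinf.natEmbedding _).injective (Subtype.ext h))
  obtain ⟨L, G, φ, K, hch, -, f0, f1, fi⟩ := ch_three (d := d) hd (hpn 0 1 (by decide))
    (hpn 0 2 (by decide)) (hpn 1 2 (by decide))
  obtain ⟨hcop1, hdeg1, hφ⟩ := hch.conj v hcop hdeg
  have hφn : ∀ (n : ℕ) (x : OnePoint ℂ), (Rf (L v))^[n] (φ x) = φ ((Rf v)^[n] x) := fun n x =>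
    iter_conj φ hφ n x
  have hup1 : ¬ Up (L v) := fun h =>
    hup (up_chart hd hch.cG hch.invL hch.invR (fun v h3 h4 => (hch.conj v h3 h4).2.2) hcop hdeg h)
  have hFS : ∀ x, φ x ∈ FS (Rf (L v)) ↔ x ∈ FS (Rf v) := fun x =>
    Pool.Agent.H76.SU.fs_conj hch.bil hφ x
  have hpF : ∀ i, p i ∈ FS (Rf v) := fun i => hAF (interior_subset (hpi i))
  have hf : Continuous (Rf v) := rat_continuous hcop
  -- the critical point
  obtain ⟨cc, hcc⟩ : ∃ cc : ℂ, (cc : OnePoint ℂ) = φ c := by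
    apply OnePoint.ne_infty_iff_exists.1
    intro h
    rw [← fi] at h
    exact hcJ ((φ.injective h) ▸ hpF 2)
  -- the closed set
  obtain ⟨B, hB⟩ : ∃ B, B = PC (Rf v) ∪ A := ⟨_, rfl⟩
  have hBc : IsClosed B := by
    rw [hB]
    exact (pc_closed _).union hA.closed
  have hBf : ∀ x ∈ B, Rf v x ∈ B := by
    intro x hx
    rw [hB] at hx ⊢
    rcases hx with hx | hx
    · exact Or.inl (pc_inv hf hx)
    · exact Or.inr (interior_subset (hA.maps x hx))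
  have hPB : PC (Rf v) ⊆ B := by
    rw [hB]
    exact subset_union_left
  have hpB : ∀ i, p i ∈ B := by
    intro i
    rw [hB]
    exact Or.inr (interior_subset (hpi i))
  have hsys : Sys0 (pol (L v).1) (pol (L v).2) (φ '' B) := by
    refine ⟨hcop1, by rw [hdeg1]; omega, φ.isClosed_image.2 hBc, ?_, ?_, ?_, ?_⟩
    · rintro _ ⟨x, hx, rfl⟩
      exact ⟨Rf v x, hBf x hx, (hφ x).symm⟩
    · intro y hy
      obtain ⟨y, rfl⟩ := φ.surjective y
      have h1 : IsCrit (Rf v) y := (isCrit_conj φ hφ y).1 hy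
      exact ⟨Rf v y, hPB (pc_orb h1 (n := 1) le_rfl), (hφ y).symm⟩
    · exact ⟨p 2, hpB 2, fi⟩
    · exact ⟨0, p 0, hpB 0, f0⟩
  -- the part of `P1` in the Julia set
  have hD : B \ (P1 ∩ JS (Rf v)) = A ∪ (PC (Rf v) ∩ FS (Rf v)) ∪ (PC (Rf v) ∩ P2) := by
    ext x
    constructor
    · rintro ⟨hx1, hx2⟩
      rw [hB] at hx1
      rcases hx1 with hx1 | hx1
      · by_cases hxF : x ∈ FS (Rf v)
        · exact Or.inl (Or.inr ⟨hx1, hxF⟩)
        · right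
          refine ⟨hx1, ?_⟩
          have h3 : x ∈ P1 ∪ P2 := by
            rw [hU]
            exact Or.inl hx1
          rcases h3 with h3 | h3
          · exact absurd ⟨h3, hxF⟩ hx2
          · exact h3
      · exact Or.inl (Or.inl hx1)
    · rintro ((hx | ⟨hx1, hx2⟩) | ⟨hx1, hx2⟩)
      · exact ⟨by rw [hB]; exact Or.inr hx, fun h => h.2 (hAF hx)⟩
      · exact ⟨hPB hx1, fun h => h.2 hx2⟩
      · exact ⟨hPB hx1, fun h => Set.disjoint_left.1 hdis h.1 hx2⟩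
  refine dis_core hd hcop1 hdeg1 hup1 hsys ⟨p 0, hpB 0, f0⟩ ⟨p 1, hpB 1, f1⟩ ?_ ?_ ?_ (c := cc) ?_ ?_
    (P1 := φ '' (P1 ∩ JS (Rf v))) ?_ ?_ ?_ ?_ ?_
  · rw [← f0, hFS]
    exact hpF 0
  · rw [← f1, hFS]
    exact hpF 1
  · rw [← fi, hFS]
    exact hpF 2
  · rw [hcc]
    exact (isCrit_conj φ hφ c).2 hc
  · rw [hcc]
    intro h
    exact hcJ ((hFS c).1 h)
  · exact φ.isClosed_image.2 (h1.inter (Pool.Agent.H47.RJ.js_closed _))
  · rintro _ ⟨x, hx, rfl⟩ h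
    exact hx.2 ((hFS x).1 h)
  · rw [hcc]
    exact ⟨c, ⟨hcP, hcJ⟩, rfl⟩
  · rw [← Set.image_sdiff φ.injective, hD]
    refine φ.isClosed_image.2 ?_
    exact (hA.closed.union (pcf_closed hd hcop hdeg hup)).union ((pc_closed _).inter h2)
  · rintro n hn ⟨x, hx, hxn⟩
    rw [hcc, hφn] at hxn
    rw [φ.injective hxn] at hx
    exact Set.disjoint_left.1 hdis hx.1 (hv n hn)

end Pool.Agent.H44.NR
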