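import Pool.Agent.H44.NR.Dsa

/-!
# Module Spx: a splitting of the post-critical set, if its part in the Julia set is totally disconnected and the critical point is not recurrent
-/

set_option autoImplicit false

open Filter Topology Polynomial Metric Set MeasureTheory

namespace Pool.Agent.H44.NR

open Pool.Agent.H44.Fatou Pool.Agent.H32.BT Pool.Agent.H79.Eul Pool.Agent.H79.Par
open Pool.Agent.H35.EX Pool.Agent.H44.RR Pool.Agent.H56.HR Pool.Agent.H44.RC Pool.Agent.H47.RJ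
open Pool.Agent.H47.NM Pool.Agent.H47.NN Pool.Agent.H44.ND Pool.Agent.H79.ES Pool.Agent.H44.RG
open Pool.Agent.H44.CP Pool.Agent.H47.PS

variable {d : ℕ} {v : E d}

/-- a compact totally disconnected set splits -/
theorem td_split {X : Type*} [TopologicalSpace X] [T2Space X] {S : Set X} (hS : IsCompact S)
    (hT : IsTotallyDisconnected S) {c : X} (hc : c ∈ S) {W : Set X} (hW : W ∈ 𝓝 c) :
    ∃ P1 P2 : Set X, IsClosed P1 ∧ IsClosed P2 ∧ P1 ∪ P2 = S ∧ Disjoint P1 P2 ∧ c ∈ P1 ∧ P1 ⊆ W := by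
  have : CompactSpace S := isCompact_iff_compactSpace.1 hS
  have : TotallyDisconnectedSpace S := by
    rw [totallyDisconnectedSpace_subtype_iff]
    exact hT
  have hU : IsOpen ((Subtype.val : S → X) ⁻¹' interior W) :=
    isOpen_interior.preimage continuous_subtype_val
  obtain ⟨V, hV, hcV, hVU⟩ := compact_exists_isClopen_in_isOpen (x := (⟨c, hc⟩ : S)) hU
    (mem_interior_iff_mem_nhds.2 hW)
  have h1 : IsCompact V := hV.1.isCompact
  have h2 : IsCompact Vᶜ := hV.compl.1.isCompact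
  refine ⟨Subtype.val '' V, Subtype.val '' Vᶜ, (h1.image continuous_subtype_val).isClosed,
    (h2.image continuous_subtype_val).isClosed, ?_, ?_, ⟨_, hcV, rfl⟩, ?_⟩
  · rw [← Set.image_union, Set.union_compl_self, Set.image_univ, Subtype.range_coe]
  · exact (Set.disjoint_image_iff Subtype.val_injective).2 disjoint_compl_right
  · rintro _ ⟨x, hx, rfl⟩
    exact interior_subset (hVU hx)

/-- no recurrence: the orbit stays away from the point -/
theorem nrec_nhd {f : OnePoint ℂ → OnePoint ℂ} {c : OnePoint ℂ} (hn : c ∉ Om f c) :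
    ∃ W ∈ 𝓝 c, ∀ n : ℕ, 1 ≤ n → f^[n] c ∉ W := by
  have h0 : ∃ U ∈ 𝓝 c, ¬ ∃ᶠ n : ℕ in atTop, f^[n] c ∈ U := by
    by_contra h
    push Not at h
    exact hn fun U hU => h U hU
  obtain ⟨U, hU, h1⟩ := h0
  rw [not_frequently] at h1
  obtain ⟨N, hN⟩ := eventually_atTop.1 h1
  have hper : ∀ n : ℕ, 1 ≤ n → f^[n] c ≠ c := by
    intro n hn1 he
    have h2 : f^[n * N] c = c := by
      rw [Function.iterate_mul]
      exact Function.iterate_fixed he N
    apply hN (n * N) (Nat.le_mul_of_pos_left _ hn1)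
    rw [h2]
    exact mem_of_mem_nhds hU
  refine ⟨U ∩ ⋂ i ∈ Finset.range N, {x | i = 0 ∨ x ≠ f^[i] c}, Filter.inter_mem hU ?_, ?_⟩
  · refine (Filter.biInter_finset_mem _).2 fun i _ => ?_
    by_cases hi : i = 0
    · filter_upwards with x
      exact Or.inl hi
    · have h3 : {f^[i] c}ᶜ ∈ 𝓝 c :=
        isOpen_compl_singleton.mem_nhds (hper i (Nat.pos_of_ne_zero hi)).symm
      filter_upwards [h3] with x hx
      exact Or.inr hx
  · rintro n hn1 ⟨h3, h4⟩
    by_cases hnN : n < N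
    · rcases mem_iInter₂.1 h4 n (Finset.mem_range.2 hnN) with h5 | h5
      · omega
      · exact h5 rfl
    · exact hN n (not_lt.1 hnN) h3

/-- the splitting -/
theorem spl_ex (hd : 2 ≤ d) (hcop : IsCoprime (pol v.1) (pol v.2))
    (hdeg : max (pol v.1).natDegree (pol v.2).natDegree = d) (hup : ¬ Up v) {c : OnePoint ℂ}
    (hc : IsCrit (Rf v) c) (hcJ : c ∈ JS (Rf v))
    (hT : IsTotallyDisconnected (PC (Rf v) ∩ JS (Rf v))) (hn : c ∉ Om (Rf v) c) :
    ∃ P1 P2 : Set (OnePoint ℂ), IsClosed P1 ∧ IsClosed P2 ∧ P1 ∪ P2 = PC (Rf v) ∪ {c} ∧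
      Disjoint P1 P2 ∧ c ∈ P1 ∧ ∀ n : ℕ, 1 ≤ n → (Rf v)^[n] c ∈ P2 := by
  by_cases hcP : c ∈ PC (Rf v)
  · obtain ⟨W, hW, hWn⟩ := nrec_nhd hn
    obtain ⟨P1, P2, h1, h2, h3, h4, h5, h6⟩ := td_split
      ((pc_closed _).inter (Pool.Agent.H47.RJ.js_closed _)).isCompact hT ⟨hcP, hcJ⟩ hW
    have hsub1 : P1 ⊆ PC (Rf v) ∩ JS (Rf v) := by
      rw [← h3]
      exact subset_union_left
    refine ⟨P1, P2 ∪ (PC (Rf v) ∩ FS (Rf v)), h1, h2.union (pcf_closed hd hcop hdeg hup), ?_, ?_, h5, ?_⟩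
    · rw [← Set.union_assoc, h3]
      ext x
      constructor
      · rintro (hx | hx)
        · exact Or.inl hx.1
        · exact Or.inl hx.1
      · rintro (hx | hx)
        · by_cases hxF : x ∈ FS (Rf v)
          · exact Or.inr ⟨hx, hxF⟩
          · exact Or.inl ⟨hx, hxF⟩
        · rw [hx]
          exact Or.inl ⟨hcP, hcJ⟩
    · rw [Set.disjoint_union_right]
      refine ⟨h4, ?_⟩
      rw [Set.disjoint_left]
      intro x hx1 hx2
      exact (hsub1 hx1).2 hx2.2
    · intro n hn1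
      left
      have h7 : (Rf v)^[n] c ∈ P1 ∪ P2 := by
        rw [h3]
        exact ⟨pc_orb hc hn1, fun h => hcJ ((fs_iff (by omega) hcop hdeg n c).1 h)⟩
      rcases h7 with h7 | h7
      · exact absurd (h6 h7) (hWn n hn1)
      · exact h7
  · refine ⟨{c}, PC (Rf v), isClosed_singleton, pc_closed _, Set.union_comm _ _, ?_, rfl, ?_⟩
    · exact Set.disjoint_singleton_left.2 hcP
    · exact fun n hn1 => pc_orb hc hn1

end Pool.Agent.H44.NR
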