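import Pool.Agent.H64.PC.VB6

/-!
# Module Bm4: four moving repelling cycles, none of which lands on another one

PROOF. As `vb` (H64/PC/VB6), for each of the four cycles as the target and the three others (`Fin.succAbove j`) as the marks: `cyc_mv` gives `Z j`; `nup_near`, the multipliers `mu (n j) (v0 + t • w, Z j t)` stay repelling, `mark_ne`, `nland`; take the minimum of the radii.
-/

set_option autoImplicit false

open Filter Topology Polynomial Metric Set

namespace Pool.Agent.H44.NR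

open Pool.Agent.H44.Fatou Pool.Agent.H32.BT Pool.Agent.H79.Eul Pool.Agent.H79.Par
open Pool.Agent.H35.EX Pool.Agent.H44.ND Pool.Agent.H79.ES Pool.Agent.H47.NN Pool.Agent.H47.NM Pool.Agent.H44.NP
open Pool.Agent.H64.PC

variable {d : ℕ}

theorem bm4 (hd : 2 ≤ d) {v0 : E d} (hcop : IsCoprime (pol v0.1) (pol v0.2))
    (hdeg : max (pol v0.1).natDegree (pol v0.2).natDegree = d) (hup : ¬ Up v0) (w : E d)
    {n : Fin 4 → ℕ} {x : Fin 4 → ℕ → ℂ} {m : Fin 4 → ℂ} (hn : ∀ j, 0 < n j)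
    (hx : ∀ j, Cyc (pol v0.1) (pol v0.2) (n j) (x j) (m j)) (hm : ∀ j, 1 < ‖m j‖)
    (hne : ∀ i j, i ≠ j → ∀ k < n j, x j k ≠ x i 0) :
    ∃ (r : ℝ) (Z : Fin 4 → ℂ → ℂ), 0 < r ∧ (∀ j, Z j 0 = x j 0) ∧
      ∀ j, BM v0 w r (fun i => Z (j.succAbove i)) (Z j) (n j) := by
  sorry

end Pool.Agent.H44.NR
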