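import Pool.Agent.H44.NR.Pdj
import Pool.Agent.H47.PS.RED

/-!
# Module Cyc: repelling cycles of locally maximal maps

PROOFS. `att_fin`: `¬ Up v`: there are finitely many periodic points outside the Julia set: in the chart of `gen_ch` (H44/ND/GCH; `up_chart`) every periodic point is a sink or repelling (`ar_gen`, H44/CP/PTR), a repelling one is in the Julia set (`Rep`; see H47/PS/PRE or the proof of `ar_of_nneu`), so a periodic point `p` in `FS` is a sink; it attracts a critical point (`sink_crit`, H44/ND/SKC),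
more precisely `(Rf v)^[n k] ((Rf v)^[m] c) → p`; the map `c ↦` cycle of `p` is well defined (two sinks attracting the same orbit are on the same cycle: `f^[n k + m] c → p`, `f^[n' k + m'] c → p'`; take times divisible by `n n'`), `crit_finite`, and cycles are finite. Conjugacy back.
`rep_dense`: `per_dense` (H44/NR/Pdj) with `U ∩ (finite set)ᶜ`. `js_inf`: `js_perfect`. `cyc4`: four times `rep_dense` with `x` any point of `JS` and `U` = the complement of the orbits already chosen and of the (finite) orbit of `∞` if `∞` is periodic (a point of `JS` in this open set exists: `js_perfect`);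
`mk_cyc` (H47/PS/RED) makes the plane cycle; a periodic point whose orbit contains `∞` is in the orbit of `∞`, and `∞` is then periodic. Disjointness: `orb_dis`, `orb_back` (H47/PS/RED), as in `red`.
-/

set_option autoImplicit false

open Filter Topology Polynomial Metric Set

namespace Pool.Agent.H44.NR

open Pool.Agent.H44.Fatou Pool.Agent.H32.BT Pool.Agent.H79.Eul Pool.Agent.H79.Par
open Pool.Agent.H35.EX Pool.Agent.H44.RR Pool.Agent.H56.HR Pool.Agent.H44.RC Pool.Agent.H47.RJ
open Pool.Agent.H47.NM Pool.Agent.H47.NN Pool.Agent.H44.ND Pool.Agent.H79.ES Pool.Agent.H44.RG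
open Pool.Agent.H44.CP

variable {d : ℕ} {v : E d}

/-- there are finitely many periodic points in the Fatou set -/
theorem att_fin (hd : 2 ≤ d) (hcop : IsCoprime (pol v.1) (pol v.2))
    (hdeg : max (pol v.1).natDegree (pol v.2).natDegree = d) (hup : ¬ Up v) :
    {p : OnePoint ℂ | p ∈ FS (Rf v) ∧ ∃ N : ℕ, 1 ≤ N ∧ (Rf v)^[N] p = p}.Finite := by
  sorry

/-- periodic points in the Julia set are dense in the Julia set -/
theorem rep_dense (hd : 2 ≤ d) (hcop : IsCoprime (pol v.1) (pol v.2))
    (hdeg : max (pol v.1).natDegree (pol v.2).natDegree = d) (hup : ¬ Up v) {x : OnePoint ℂ}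
    (hx : x ∈ JS (Rf v)) {U : Set (OnePoint ℂ)} (hU : U ∈ 𝓝 x) :
    ∃ p ∈ U, p ∈ JS (Rf v) ∧ ∃ N : ℕ, 1 ≤ N ∧ (Rf v)^[N] p = p := by
  sorry

/-- the Julia set is not empty -/
theorem js_ne (hd : 2 ≤ d) (hcop : IsCoprime (pol v.1) (pol v.2))
    (hdeg : max (pol v.1).natDegree (pol v.2).natDegree = d) (hup : ¬ Up v) : (JS (Rf v)).Nonempty := by
  sorry

/-- four disjoint repelling cycles in the plane -/
theorem cyc4 (hd : 2 ≤ d) (hcop : IsCoprime (pol v.1) (pol v.2))
    (hdeg : max (pol v.1).natDegree (pol v.2).natDegree = d) (hup : ¬ Up v) :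
    ∃ (n : Fin 4 → ℕ) (x : Fin 4 → ℕ → ℂ) (m : Fin 4 → ℂ), (∀ j, 0 < n j) ∧
      (∀ j, Cyc (pol v.1) (pol v.2) (n j) (x j) (m j)) ∧ (∀ j, 1 < ‖m j‖) ∧
      (∀ j, (x j 0 : OnePoint ℂ) ∈ JS (Rf v)) ∧ ∀ i j, i ≠ j → ∀ k < n j, x j k ≠ x i 0 := by
  sorry

end Pool.Agent.H44.NR
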