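import Pool.Agent.H44.NR.Rng
import Pool.Agent.H47.PS.RED

/-!
# Module Dsa: orbits in the Fatou set, wandering discs, density of the Fatou set (for the dissipative part of THEOREM P+)
-/

set_option autoImplicit false

open Filter Topology Polynomial Metric Set MeasureTheory

namespace Pool.Agent.H44.NR

open Pool.Agent.H44.Fatou Pool.Agent.H32.BT Pool.Agent.H79.Eul Pool.Agent.H79.Par
open Pool.Agent.H35.EX Pool.Agent.H44.RR Pool.Agent.H56.HR Pool.Agent.H44.RC Pool.Agent.H47.RJ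
open Pool.Agent.H47.NM Pool.Agent.H47.NN Pool.Agent.H44.ND Pool.Agent.H79.ES Pool.Agent.H44.RG
open Pool.Agent.H44.CP Pool.Agent.H47.PS

variable {d : ℕ} {v : E d}

/-- the orbit of an attracted point is in a closed set of attracted points -/
theorem orb_cl (hd : 2 ≤ d) (hcop : IsCoprime (pol v.1) (pol v.2))
    (hdeg : max (pol v.1).natDegree (pol v.2).natDegree = d) {x : OnePoint ℂ}
    (hx : Att (Rf v) x) :
    ∃ F : Set (OnePoint ℂ), IsClosed F ∧ (∀ y ∈ F, Att (Rf v) y) ∧ ∀ n : ℕ, (Rf v)^[n] x ∈ F := by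
  have hx' := hx
  obtain ⟨z, n, hs, ht⟩ := hx
  have hf : Continuous (Rf v) := rat_continuous hcop
  obtain ⟨A, hA, hz⟩ := Pool.Agent.H84.BR.trap_of_sink hcop (by rw [hdeg]; exact hd) hs
  obtain ⟨k, hk⟩ := (ht.eventually (mem_interior_iff_mem_nhds.1 hz)).exists
  have hAit : ∀ m : ℕ, (Rf v)^[n * k + m] x ∈ A := by
    intro m
    induction m with
    | zero => exact hk
    | succ m ih =>
      rw [← Nat.add_assoc, Function.iterate_succ_apply']
      exact interior_subset (hA.maps _ ih)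
  refine ⟨A ∪ (fun i => (Rf v)^[i] x) '' (Finset.range (n * k) : Set ℕ), ?_, ?_, ?_⟩
  · exact hA.closed.union ((Finset.range (n * k)).finite_toSet.image _).isClosed
  · rintro y (hy | ⟨i, -, rfl⟩)
    · exact hA.att y hy
    · exact (Pool.Agent.H32.BT.att_iter hf x i).2 hx'
  · intro m
    by_cases hm : m < n * k
    · exact Or.inr ⟨m, Finset.mem_coe.2 (Finset.mem_range.2 hm), rfl⟩
    · left
      have h1 := hAit (m - n * k)
      rwa [Nat.add_sub_cancel' (not_lt.1 hm)] at h1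

/-- the part of the post-critical set in the Fatou set is closed -/
theorem pcf_closed (hd : 2 ≤ d) (hcop : IsCoprime (pol v.1) (pol v.2))
    (hdeg : max (pol v.1).natDegree (pol v.2).natDegree = d) (hup : ¬ Up v) :
    IsClosed (PC (Rf v) ∩ FS (Rf v)) := by
  have hfin : {c | IsCrit (Rf v) c}.Finite := crit_finite hcop (by rw [hdeg]; omega)
  have hex : ∀ c : OnePoint ℂ, ∃ F, IsClosed F ∧ F ⊆ FS (Rf v) ∧
      (c ∈ FS (Rf v) → ∀ n : ℕ, (Rf v)^[n] c ∈ F) := by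
    intro c
    by_cases hc : c ∈ FS (Rf v)
    · obtain ⟨F, h1, h2, h3⟩ := orb_cl hd hcop hdeg (Pool.Agent.H64.MJ.fs_att hd hcop hdeg hup hc)
      exact ⟨F, h1, fun y hy => att_in hd hcop hdeg hup (h2 y hy), fun _ => h3⟩
    · exact ⟨∅, isClosed_empty, empty_subset _, fun h => absurd h hc⟩
  choose F hF1 hF2 hF3 using hex
  obtain ⟨G, hG⟩ : ∃ G, G = ⋃ c ∈ {c | IsCrit (Rf v) c}, F c := ⟨_, rfl⟩
  have hGc : IsClosed G := by
    rw [hG]
    exact hfin.isClosed_biUnion fun c _ => hF1 c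
  have hGF : G ⊆ FS (Rf v) := by
    rw [hG]
    exact iUnion₂_subset fun c _ => hF2 c
  have hsub : PC (Rf v) ⊆ G ∪ JS (Rf v) := by
    unfold PC
    refine closure_minimal ?_ (hGc.union (js_closed _))
    rintro y ⟨c, hc, n, hn, rfl⟩
    by_cases h : c ∈ FS (Rf v)
    · left
      rw [hG]
      exact mem_biUnion (x := c) hc (hF3 c h n)
    · right
      intro h1
      exact h ((fs_iff (by omega) hcop hdeg n c).1 h1)
  have hE : PC (Rf v) ∩ FS (Rf v) = PC (Rf v) ∩ G := by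
    ext x
    constructor
    · rintro ⟨h1, h2⟩
      rcases hsub h1 with h | h
      · exact ⟨h1, h⟩
      · exact absurd h2 h
    · rintro ⟨h1, h2⟩
      exact ⟨h1, hGF h2⟩
  rw [hE]
  exact (pc_closed _).inter hGc

/-- the orbit of an attracted point which is not periodic does not come back to the point -/
theorem orb_away (hcop : IsCoprime (pol v.1) (pol v.2)) {y : OnePoint ℂ} (hy : Att (Rf v) y)
    (hper : ∀ n : ℕ, 0 < n → (Rf v)^[n] y ≠ y) :
    ∃ W ∈ 𝓝 y, ∀ n : ℕ, 0 < n → (Rf v)^[n] y ∉ W := by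
  obtain ⟨z, n0, ⟨hn0, hzp, -⟩, ht⟩ := hy
  have hf : Continuous (Rf v) := rat_continuous hcop
  have h1 : ∀ i : ℕ, ∃ W ∈ 𝓝 y, ∀ᶠ k : ℕ in atTop, (Rf v)^[n0 * k + i] y ∉ W := by
    intro i
    have hne : (Rf v)^[i] z ≠ y := by
      intro h
      apply hper n0 hn0
      rw [← h, ← Function.iterate_add_apply, Nat.add_comm, Function.iterate_add_apply, hzp]
    obtain ⟨U, V, hU, hV, hzU, hyV, hUV⟩ := t2_separation hne
    refine ⟨V, hV.mem_nhds hyV, ?_⟩
    have h2 : Tendsto (fun k : ℕ => (Rf v)^[n0 * k + i] y) atTop (𝓝 ((Rf v)^[i] z)) := by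
      have h3 := ((hf.iterate i).tendsto z).comp ht
      refine h3.congr fun k => ?_
      rw [Nat.add_comm, Function.iterate_add_apply]
      rfl
    filter_upwards [h2.eventually (hU.mem_nhds hzU)] with k hk hkV
    exact Set.disjoint_left.1 hUV hk hkV
  choose W hW hWe using h1
  have h2 : ∀ᶠ k : ℕ in atTop, ∀ i ∈ Finset.range n0, (Rf v)^[n0 * k + i] y ∉ W i := by
    rw [Filter.eventually_all_finset]
    exact fun i _ => hWe i
  obtain ⟨K, hK⟩ := eventually_atTop.1 h2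
  refine ⟨(⋂ i ∈ Finset.range n0, W i) ∩ ⋂ i ∈ Finset.range (n0 * K), {x | i = 0 ∨ x ≠ (Rf v)^[i] y},
    Filter.inter_mem ?_ ?_, ?_⟩
  · exact (Filter.biInter_finset_mem _).2 fun i _ => hW i
  · refine (Filter.biInter_finset_mem _).2 fun i _ => ?_
    by_cases hi : i = 0
    · filter_upwards with x
      exact Or.inl hi
    · have h3 : {(Rf v)^[i] y}ᶜ ∈ 𝓝 y :=
        isOpen_compl_singleton.mem_nhds (hper i (Nat.pos_of_ne_zero hi)).symm
      filter_upwards [h3] with x hx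
      exact Or.inr hx
  · rintro n hn ⟨hn1, hn2⟩
    by_cases hnK : n < n0 * K
    · have h3 := mem_iInter₂.1 hn2 n (Finset.mem_range.2 hnK)
      rcases h3 with h3 | h3
      · omega
      · exact h3 rfl
    · have h4 : n % n0 < n0 := Nat.mod_lt n hn0
      have h5 := mem_iInter₂.1 hn1 (n % n0) (Finset.mem_range.2 h4)
      have h6 : K ≤ n / n0 := by
        rw [Nat.le_div_iff_mul_le hn0, Nat.mul_comm]
        exact not_lt.1 hnK
      have h7 := hK _ h6 (n % n0) (Finset.mem_range.2 h4)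
      rw [Nat.div_add_mod] at h7
      exact h7 h5

/-- wandering discs -/
theorem wan_ex (hd : 2 ≤ d) (hcop : IsCoprime (pol v.1) (pol v.2))
    (hdeg : max (pol v.1).natDegree (pol v.2).natDegree = d) (hup : ¬ Up v) {y : ℂ}
    (hy : (y : OnePoint ℂ) ∈ FS (Rf v))
    (hper : ∀ n : ℕ, 0 < n → (Rf v)^[n] (y : OnePoint ℂ) ≠ (y : OnePoint ℂ)) {r0 : ℝ} (hr0 : 0 < r0) :
    ∃ r : ℝ, 0 < r ∧ r ≤ r0 ∧ ∀ n : ℕ, 0 < n → ∀ z ∈ ball y r, ∀ z' ∈ ball y r,
      (Rf v)^[n] (z : OnePoint ℂ) ≠ (z' : OnePoint ℂ) := by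
  obtain ⟨W, hW, hWn⟩ := orb_away hcop (Pool.Agent.H64.MJ.fs_att hd hcop hdeg hup hy) hper
  obtain ⟨ε, hε, hεW⟩ := Pool.Agent.H47.RJ.ch_nhds hW
  have hEq : EqAt (Rf v) (y : OnePoint ℂ) := interior_subset hy
  have h1 := hEq (ε / 2) (half_pos hε)
  have h2 : {x | chord (y : OnePoint ℂ) x < ε / 2} ∈ 𝓝 (y : OnePoint ℂ) :=
    Pool.Agent.H47.RJ.ch_ball _ (half_pos hε)
  have h3 : ∀ᶠ z : ℂ in 𝓝 y, (∀ n : ℕ, chord ((Rf v)^[n] (y : OnePoint ℂ)) ((Rf v)^[n] (z : OnePoint ℂ)) < ε / 2) ∧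
      chord (y : OnePoint ℂ) (z : OnePoint ℂ) < ε / 2 :=
    OnePoint.continuous_coe.continuousAt.eventually (h1.and h2)
  obtain ⟨r, hr, h4⟩ := Metric.mem_nhds_iff.1 h3
  refine ⟨min r r0, lt_min hr hr0, min_le_right _ _, ?_⟩
  intro n hn z hz z' hz' he
  have h5 := (h4 (ball_subset_ball (min_le_left _ _) hz)).1 n
  have h6 := (h4 (ball_subset_ball (min_le_left _ _) hz')).2
  rw [he] at h5
  apply hWn n hn
  apply hεW
  have h7 := Pool.Agent.H47.RJ.ch_tri (y : OnePoint ℂ) (z' : OnePoint ℂ) ((Rf v)^[n] (y : OnePoint ℂ))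
  rw [chord_comm (z' : OnePoint ℂ)] at h7
  linarith

/-- the Fatou set is dense if it is not empty -/
theorem fs_den (hd : 2 ≤ d) (hcop : IsCoprime (pol v.1) (pol v.2))
    (hdeg : max (pol v.1).natDegree (pol v.2).natDegree = d) (hF : (FS (Rf v)).Nonempty) (x : ℂ)
    {r : ℝ} (hr : 0 < r) : ∃ y ∈ ball x r, (y : OnePoint ℂ) ∈ FS (Rf v) := by
  by_contra hcon
  push Not at hcon
  obtain ⟨x0, hx0⟩ := hF
  have hinf : (FS (Rf v)).Infinite := by
    intro hfin
    have h1 : (FS (Rf v)) ∈ 𝓝 x0 := (Pool.Agent.H47.RJ.fs_open _).mem_nhds hx0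
    exact (infinite_of_mem_nhds x0 h1) hfin
  obtain ⟨e, he⟩ : ∃ e : Fin 3 → OnePoint ℂ, e = fun i : Fin 3 => (hinf.natEmbedding _ (i : ℕ) : OnePoint ℂ) :=
    ⟨_, rfl⟩
  have he1 : Function.Injective e := by
    intro i j hij
    rw [he] at hij
    have h1 : hinf.natEmbedding _ (i : ℕ) = hinf.natEmbedding _ (j : ℕ) := Subtype.ext hij
    exact Fin.ext ((hinf.natEmbedding _).injective h1)
  have he2 : ∀ i, e i ∈ FS (Rf v) := by
    intro i
    rw [he]
    exact (hinf.natEmbedding _ (i : ℕ)).2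
  have h1 := m3_ch (x := x) (by omega) hcop hdeg hr he1 (by
    intro z hz n i h2
    apply hcon z hz
    rw [← fs_iff (by omega) hcop hdeg n, h2]
    exact he2 i)
  apply hcon x (mem_ball_self hr)
  have h3 : ((fun z : ℂ => (z : OnePoint ℂ)) '' ball x (r / 2)) ⊆ {y | EqAt (Rf v) y} := by
    rintro _ ⟨z, hz, rfl⟩
    exact h1 z hz
  have h4 : IsOpen ((fun z : ℂ => (z : OnePoint ℂ)) '' ball x (r / 2)) :=
    OnePoint.isOpenEmbedding_coe.isOpenMap _ isOpen_ball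
  exact interior_maximal h3 h4 ⟨x, mem_ball_self (half_pos hr), rfl⟩

/-- an open set of the plane meets the Fatou set outside every countable set -/
theorem fs_avoid (hd : 2 ≤ d) (hcop : IsCoprime (pol v.1) (pol v.2))
    (hdeg : max (pol v.1).natDegree (pol v.2).natDegree = d) (hF : (FS (Rf v)).Nonempty) (x : ℂ)
    {r : ℝ} (hr : 0 < r) {S : Set (OnePoint ℂ)} (hS : S.Countable) :
    ∃ y ∈ ball x r, (y : OnePoint ℂ) ∈ FS (Rf v) ∧ (y : OnePoint ℂ) ∉ S := by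
  obtain ⟨y0, hy0, hy0F⟩ := fs_den hd hcop hdeg hF x hr
  have hS' : ((fun z : ℂ => (z : OnePoint ℂ)) ⁻¹' S).Countable :=
    hS.preimage OnePoint.coe_injective
  have ho : IsOpen (ball x r ∩ (fun z : ℂ => (z : OnePoint ℂ)) ⁻¹' FS (Rf v)) :=
    isOpen_ball.inter ((Pool.Agent.H47.RJ.fs_open _).preimage OnePoint.continuous_coe)
  obtain ⟨y, ⟨hy1, hy2⟩, hy3⟩ := (hS'.dense_compl ℂ).inter_open_nonempty _ ho ⟨y0, hy0, hy0F⟩
  exact ⟨y, hy1, hy2, hy3⟩

/-- the periodic points are countable -/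
theorem per_cnt (hd : 2 ≤ d) (hcop : IsCoprime (pol v.1) (pol v.2))
    (hdeg : max (pol v.1).natDegree (pol v.2).natDegree = d) :
    {x : OnePoint ℂ | ∃ n : ℕ, 0 < n ∧ (Rf v)^[n] x = x}.Countable := by
  have h1 : {x : OnePoint ℂ | ∃ n : ℕ, 0 < n ∧ (Rf v)^[n] x = x} ⊆
      ⋃ n : ℕ, {x : OnePoint ℂ | (Rf v)^[n + 1] x = x} := by
    rintro x ⟨n, hn, hx⟩
    refine mem_iUnion.2 ⟨n - 1, ?_⟩
    show (Rf v)^[n - 1 + 1] x = x
    rwa [Nat.sub_add_cancel hn]
  refine Set.Countable.mono h1 (Set.countable_iUnion fun n => ?_)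
  exact (per_finite hcop (by omega) (n := n + 1) (Nat.succ_pos n)).countable

end Pool.Agent.H44.NR
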