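import Pool.Agent.H44.NR.Lip
import Pool.Agent.H64.PC.VB1
import Pool.Agent.H64.PC.VB2

/-!
# Module Eqt: if the orbit of a point omits three moving points then it is equicontinuous in the parameter

PROOF. `R_n t = (hi (v0 + t • w) n (z0, 1)).1`, `S_n t = (hi (v0 + t • w) n (z0, 1)).2` (H64/PC/VB1): differentiable (`hi_an`, composition with `t ↦ (v0 + t • w, (z0, 1))`), `hi_ne`: `(Rf (v0 + t • w))^[n] z0 = pt (R_n t) (S_n t)`, so `R_n t - Z i t * S_n t ≠ 0` (`pt_coe_iff`, H64/PC/VB2). `lipm` at the centre `0`.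
-/

set_option autoImplicit false

open Filter Topology Polynomial Metric Set

namespace Pool.Agent.H44.NR

open Pool.Agent.H44.Fatou Pool.Agent.H32.BT Pool.Agent.H79.Eul Pool.Agent.H79.Par
open Pool.Agent.H35.EX Pool.Agent.H44.RR Pool.Agent.H56.HR Pool.Agent.H44.RC Pool.Agent.H47.RJ
open Pool.Agent.H64.PC

variable {d : ℕ} {v0 w : E d} {r : ℝ} {Z : Fin 3 → ℂ → ℂ}

theorem eqt (hr : 0 < r)
    (hcop : ∀ t : ℂ, ‖t‖ < r → IsCoprime (pol (v0 + t • w).1) (pol (v0 + t • w).2))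
    (hdeg : ∀ t : ℂ, ‖t‖ < r → max (pol (v0 + t • w).1).natDegree (pol (v0 + t • w).2).natDegree = d)
    (hZ : ∀ j, DifferentiableOn ℂ (Z j) (ball 0 r))
    (hne : ∀ i j, i ≠ j → ∀ t ∈ ball (0 : ℂ) r, Z i t ≠ Z j t) {z0 : ℂ}
    (hn : ∀ j, ∀ t : ℂ, ‖t‖ < r → ∀ n : ℕ, (Rf (v0 + t • w))^[n] (z0 : OnePoint ℂ) ≠ (Z j t : OnePoint ℂ)) :
    ∃ C : ℝ, 0 ≤ C ∧ ∀ t : ℂ, ‖t‖ < r / 2 → ∀ n : ℕ,
      chord ((Rf v0)^[n] (z0 : OnePoint ℂ)) ((Rf (v0 + t • w))^[n] (z0 : OnePoint ℂ)) ≤ C * ‖t‖ := by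
  obtain ⟨C, hC, hL⟩ := lipm (x := 0) hr (α := Z) (β := fun _ _ => 1) hZ
    (fun i => differentiableOn_const (1 : ℂ)) (fun i j hij z hz => by
      simp only [mul_one]
      exact sub_ne_zero.2 (hne i j hij z hz))
  have han : ∀ (n : ℕ) (t : ℂ), AnalyticAt ℂ (fun t : ℂ => hi (v0 + t • w) n ((z0, 1) : ℂ × ℂ)) t := by
    intro n t
    have h1 : AnalyticAt ℂ (fun t : ℂ => ((v0 + t • w, ((z0, 1) : ℂ × ℂ)) : E d × (ℂ × ℂ))) t :=
      (analyticAt_const.add (analyticAt_id.smul analyticAt_const)).prod analyticAt_const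
    exact AnalyticAt.fun_comp (g := fun p : E d × (ℂ × ℂ) => hi p.1 n p.2)
      (f := fun t : ℂ => ((v0 + t • w, ((z0, 1) : ℂ × ℂ)) : E d × (ℂ × ℂ))) (hi_an n _) h1
  have hpt1 : pt z0 1 = (z0 : OnePoint ℂ) := by
    unfold pt
    rw [if_neg one_ne_zero, div_one]
  have hit : ∀ (n : ℕ) (t : ℂ), ‖t‖ < r →
      ((hi (v0 + t • w) n ((z0, 1) : ℂ × ℂ)).1 ≠ 0 ∨ (hi (v0 + t • w) n ((z0, 1) : ℂ × ℂ)).2 ≠ 0) ∧
      (Rf (v0 + t • w))^[n] (z0 : OnePoint ℂ) =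
        pt (hi (v0 + t • w) n ((z0, 1) : ℂ × ℂ)).1 (hi (v0 + t • w) n ((z0, 1) : ℂ × ℂ)).2 := by
    intro n t ht
    have h1 := hi_ne (hcop t ht) (hdeg t ht) (q := ((z0, 1) : ℂ × ℂ)) (Or.inr one_ne_zero) n
    refine ⟨h1.1, ?_⟩
    rw [← hpt1]
    exact h1.2
  refine ⟨C, hC, fun t ht n => ?_⟩
  have h1 := hL (fun t => (hi (v0 + t • w) n ((z0, 1) : ℂ × ℂ)).1)
    (fun t => (hi (v0 + t • w) n ((z0, 1) : ℂ × ℂ)).2)
    (fun t _ => (fst_an (han n t)).differentiableAt.differentiableWithinAt)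
    (fun t _ => (snd_an (han n t)).differentiableAt.differentiableWithinAt)
    (fun i t ht => by
      rw [mem_ball_zero_iff] at ht
      simp only [one_mul]
      obtain ⟨h2, h3⟩ := hit n t ht
      intro h4
      exact hn i t ht n (h3.trans ((pt_coe_iff h2).2 h4)))
    0 (mem_ball_self (by linarith)) t (by rw [mem_ball_zero_iff]; exact ht)
  have h0 : ‖(0 : ℂ)‖ < r := by rw [norm_zero]; exact hr
  have h5 := (hit n 0 h0).2
  have h6 := (hit n t (by linarith [norm_nonneg t])).2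
  have h7 : v0 + (0 : ℂ) • w = v0 := by rw [zero_smul, add_zero]
  rw [h7] at h5
  simp only [h7] at h1
  rw [h5, h6]
  rw [zero_sub, norm_neg] at h1
  exact h1

end Pool.Agent.H44.NR
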