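import Pool.Agent.H56.HR.HOL

/-!
# Module Hdr: a direction in which no orbit stays in a compact part of the ring

PROOF. The proof of `hol` (H56/HR/HOL) with one fixed `w ∈ H` (`hol_pos`; `H` is not empty because it has positive measure).
-/

set_option autoImplicit false

open Filter Topology Polynomial Metric Set MeasureTheory

namespace Pool.Agent.H44.NR

open Pool.Agent.H44.Fatou Pool.Agent.H32.BT Pool.Agent.H79.Eul Pool.Agent.H79.Par Pool.Agent.H61.TT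
open Pool.Agent.H56.HR

variable {d : ℕ} {v0 : E d} {p : ℕ} {l : ℂ} {ψ : ℂ → ℂ} {r R : ℝ}

theorem hdr (h : Ring v0 p l ψ r R) : ∃ w : E d, ∀ K : Set ℂ, IsCompact K → K ⊆ ψ '' Ann r R →
    ∀ᶠ ρ in 𝓝[>] (0 : ℝ), ¬ ∃ z : OnePoint ℂ, ∀ n : ℕ,
      (Rf (v0 + ((ρ : ℝ) : ℂ) • w))^[p * n] z ∈ ((↑) : ℂ → OnePoint ℂ) '' K := by
  obtain ⟨s, hs, hs'⟩ := exists_between h.hrR
  obtain ⟨c, H, hc, hHm, hHb, hHv, hHc⟩ := hol_pos h hs hs'
  obtain ⟨w, hw⟩ := nonempty_of_measure_ne_zero hHv.ne'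
  refine ⟨w, fun K hK hKs => ?_⟩
  obtain ⟨s1, s2, h1, -, h2, hK12⟩ := hol_cpt h hK hKs
  obtain ⟨δ, hδ, hdrf⟩ := drf h hs hs' h1 h2 (ε := c / 2) (by linarith)
  have hsub : CAn s1 s2 ⊆ Ann r R := can_sub h1 h2
  have hKc : IsCompact (ψ '' CAn s1 s2) := (isCompact_CAn s1 s2).image_of_continuousOn
    fun w hw => (psi_hd h 0 (hsub hw)).continuousAt.continuousWithinAt
  obtain ⟨C0, η0, hC0, hη0, hexp⟩ := exp1 (v0 := v0) hKc p (by
    rintro j - _ ⟨w, hw, rfl⟩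
    exact h.fin j w (hsub hw))
  filter_upwards [Ioo_mem_nhdsGT (lt_min hδ hη0)] with ρ hρ
  obtain ⟨hρ0, hρ1⟩ := hρ
  rintro ⟨z, hz⟩
  have hwn : ‖w‖ < 1 := mem_ball_zero_iff.1 (hHb hw)
  obtain ⟨u, hu⟩ : ∃ u : E d, u = (ρ : ℂ) • w := ⟨_, rfl⟩
  rw [← hu] at hz
  have hun : ‖u‖ < ρ := by
    rw [hu, norm_smul, Complex.norm_real, Real.norm_of_nonneg hρ0.le]
    nlinarith
  have hu1 : ‖u‖ < δ := hun.trans (hρ1.trans_le (min_le_left _ _))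
  have hu2 : ‖u‖ ≤ η0 := (hun.trans (hρ1.trans_le (min_le_right _ _))).le
  have hch : ∀ n : ℕ, ∃ x ∈ CAn s1 s2, (Rf (v0 + u))^[p * n] z = ((ψ x : ℂ) : OnePoint ℂ) := by
    intro n
    have h3 := hz n
    obtain ⟨y, hy, hye⟩ := h3
    obtain ⟨x, hx, rfl⟩ := hK12 hy
    exact ⟨x, hx, hye.symm⟩
  choose x hx hxe using hch
  have hstep : ∀ n, it (v0 + u) p (ψ (x n)) = ψ (x (n + 1)) := by
    intro n
    obtain ⟨hpole, -, -⟩ := hexp u hu2 (ψ (x n)) ⟨x n, hx n, rfl⟩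
    have h3 := hxe (n + 1)
    have e : p * (n + 1) = p + p * n := by ring
    rw [e, Function.iterate_add_apply, hxe n, rat_it hpole] at h3
    exact OnePoint.coe_injective h3
  have h4 := hdrf u hu1 ⟨x, hx, hstep⟩
  have h5 : LA v0 p ψ s (xi v0 u) = (ρ : ℂ) * LA v0 p ψ s (xi v0 w) := by
    rw [← la_xi_smul h hs hs', hu]
  have h6 : (LA v0 p ψ s (xi v0 u)).re = ρ * (LA v0 p ψ s (xi v0 w)).re := by
    rw [h5, Complex.re_ofReal_mul]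
  have h7 := hHc w hw
  have h8 : ρ * c < (LA v0 p ψ s (xi v0 u)).re := by
    rw [h6]
    exact mul_lt_mul_of_pos_left h7 hρ0
  have h9 := le_abs_self (LA v0 p ψ s (xi v0 u)).re
  have h10 : c / 2 * ‖u‖ ≤ c / 2 * ρ := by gcongr
  nlinarith

end Pool.Agent.H44.NR
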