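import Pool.Agent.H84.TE.LAN3
import Pool.Agent.H47.RJ.M3M

/-!
# Module Lip: functions which omit three moving values are uniformly chordal Lipschitz

PROOF. (1) Uniform version of `lan3` (H84/TE/LAN3): for every `y ∈ closedBall x (r / 2)` the proof of `lan3` at the centre `y` with the radius `r / 2` gives the explicit constant
`2 * ((CL / (r / 2)) * (1 + ‖κ y‖ ^ 2) * A y ^ 2 + ‖deriv κ y‖ * A y ^ 2 + 2 * ‖κ y‖ * A y ^ 2) / (‖κ y‖ * ‖α 0 y * β 2 y - α 2 y * β 0 y‖)`, `A y = (‖α 0 y‖ + ‖β 0 y‖) + (‖α 2 y‖ + ‖β 2 y‖) + (‖deriv (α 0) y‖ + ‖deriv (β 0) y‖) + (‖deriv (α 2) y‖ + ‖deriv (β 2) y‖)`, a continuous function of `y` on the compact `closedBall x (r / 2) ⊆ ball x r`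
(`DifferentiableOn.deriv`, `IsCompact.exists_bound_of_continuousOn`).
(2) `m3_lip` (private in H47/RJ/M3M: copy it, with `DifferentiableOn ℂ R (ball x r)` in the place of `Differentiable ℂ R`: all points of the segment are in `ball x (r / 2)`). `R z ≠ 0 ∨ S z ≠ 0`: otherwise `β 0 z * R z - α 0 z * S z = 0`.
-/

set_option autoImplicit false

open Filter Topology Polynomial Metric Set

namespace Pool.Agent.H44.NR

open Pool.Agent.H44.Fatou Pool.Agent.H32.BT Pool.Agent.H79.Eul Pool.Agent.H79.Par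
open Pool.Agent.H35.EX Pool.Agent.H44.RR Pool.Agent.H56.HR Pool.Agent.H44.RC Pool.Agent.H47.RJ

private noncomputable def kap (α β : Fin 3 → ℂ → ℂ) (z : ℂ) : ℂ :=
  -(α 1 z * β 2 z - α 2 z * β 1 z) / (α 0 z * β 1 z - α 1 z * β 0 z)

private noncomputable def lipA (α β : Fin 3 → ℂ → ℂ) (x : ℂ) : ℝ :=
  (‖α 0 x‖ + ‖β 0 x‖) + (‖α 2 x‖ + ‖β 2 x‖) + (‖deriv (α 0) x‖ + ‖deriv (β 0) x‖) +
      (‖deriv (α 2) x‖ + ‖deriv (β 2) x‖)

private noncomputable def lipC (CL r : ℝ) (α β : Fin 3 → ℂ → ℂ) (x : ℂ) : ℝ :=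
  2 * ((CL / r) * (1 + ‖kap α β x‖ ^ 2) * lipA α β x ^ 2 + ‖deriv (kap α β) x‖ * lipA α β x ^ 2 +
    2 * ‖kap α β x‖ * lipA α β x ^ 2) / (‖kap α β x‖ * ‖α 0 x * β 2 x - α 2 x * β 0 x‖)

/-- the estimate at the point -/
private theorem lan_est {a0 a2 b0 b2 a0' a2' b0' b2' R S R' S' κ κ' h h' : ℂ} {CL r A : ℝ} (hr : 0 < r) (hCL : 0 < CL)
    (hA0 : ‖a0‖ + ‖b0‖ ≤ A) (hA2 : ‖a2‖ + ‖b2‖ ≤ A) (hA0' : ‖a0'‖ + ‖b0'‖ ≤ A) (hA2' : ‖a2'‖ + ‖b2'‖ ≤ A)
    (hκ : κ ≠ 0) (hD : a0 * b2 - a2 * b0 ≠ 0) (hh : h * (b2 * R - a2 * S) = κ * (b0 * R - a0 * S))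
    (hh' : r * ‖h'‖ ≤ CL * (1 + ‖h‖ ^ 2))
    (hd : h' * (b2 * R - a2 * S) ^ 2 = (κ' * (b0 * R - a0 * S) + κ * ((b0' * R + b0 * R') - (a0' * S + a0 * S'))) *
      (b2 * R - a2 * S) - κ * (b0 * R - a0 * S) * ((b2' * R + b2 * R') - (a2' * S + a2 * S'))) :
    ‖R' * S - R * S'‖ ≤ 2 * ((CL / r) * (1 + ‖κ‖ ^ 2) * A ^ 2 + ‖κ'‖ * A ^ 2 + 2 * ‖κ‖ * A ^ 2) /
      (‖κ‖ * ‖a0 * b2 - a2 * b0‖) * (‖R‖ ^ 2 + ‖S‖ ^ 2) := by
  have hA : 0 ≤ A := le_trans (by positivity) hA0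
  obtain ⟨T, hT⟩ : ∃ T : ℝ, T = ‖R‖ + ‖S‖ := ⟨_, rfl⟩
  have hT0 : 0 ≤ T := by rw [hT]; positivity
  have hlin : ∀ u v : ℂ, ‖u‖ + ‖v‖ ≤ A → ‖v * R - u * S‖ ≤ A * T := by
    intro u v huv
    refine (norm_sub_le _ _).trans ?_
    rw [norm_mul, norm_mul, hT]
    nlinarith [norm_nonneg u, norm_nonneg v, norm_nonneg R, norm_nonneg S, mul_nonneg (norm_nonneg u) (norm_nonneg R),
      mul_nonneg (norm_nonneg v) (norm_nonneg S)]
  have hL0 := hlin a0 b0 hA0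
  have hL2 := hlin a2 b2 hA2
  have hE0 := hlin a0' b0' hA0'
  have hE2 := hlin a2' b2' hA2'
  have key : κ * (a0 * b2 - a2 * b0) * (R' * S - R * S') = h' * (b2 * R - a2 * S) ^ 2 -
      κ' * (b0 * R - a0 * S) * (b2 * R - a2 * S) -
      κ * ((b0' * R - a0' * S) * (b2 * R - a2 * S) - (b0 * R - a0 * S) * (b2' * R - a2' * S)) := by
    rw [hd]
    ring
  generalize b2 * R - a2 * S = L2 at *
  generalize b0 * R - a0 * S = L0 at *
  generalize b0' * R - a0' * S = E0 at *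
  generalize b2' * R - a2' * S = E2 at *
  have h1 : ‖h'‖ * ‖L2‖ ^ 2 ≤ (CL / r) * (1 + ‖κ‖ ^ 2) * A ^ 2 * T ^ 2 := by
    have h2 : ‖h'‖ ≤ (CL / r) * (1 + ‖h‖ ^ 2) := by
      rw [div_mul_eq_mul_div, le_div_iff₀ hr, mul_comm]
      exact hh'
    have h3 : ‖h‖ * ‖L2‖ = ‖κ‖ * ‖L0‖ := by rw [← norm_mul, hh, norm_mul]
    have h4 : (1 + ‖h‖ ^ 2) * ‖L2‖ ^ 2 = ‖L2‖ ^ 2 + ‖κ‖ ^ 2 * ‖L0‖ ^ 2 := by
      rw [add_mul, one_mul, ← mul_pow, h3, mul_pow]
    have h5 : ‖L2‖ ^ 2 ≤ (A * T) ^ 2 := pow_le_pow_left₀ (norm_nonneg _) hL2 2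
    have h6 : ‖L0‖ ^ 2 ≤ (A * T) ^ 2 := pow_le_pow_left₀ (norm_nonneg _) hL0 2
    calc ‖h'‖ * ‖L2‖ ^ 2 ≤ (CL / r) * (1 + ‖h‖ ^ 2) * ‖L2‖ ^ 2 := mul_le_mul_of_nonneg_right h2 (by positivity)
      _ = (CL / r) * (‖L2‖ ^ 2 + ‖κ‖ ^ 2 * ‖L0‖ ^ 2) := by rw [mul_assoc, h4]
      _ ≤ (CL / r) * ((A * T) ^ 2 + ‖κ‖ ^ 2 * (A * T) ^ 2) := by
          refine mul_le_mul_of_nonneg_left (add_le_add h5 (mul_le_mul_of_nonneg_left h6 (by positivity))) (by positivity)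
      _ = _ := by ring
  have h7 : ‖κ' * L0 * L2‖ ≤ ‖κ'‖ * A ^ 2 * T ^ 2 := by
    rw [norm_mul, norm_mul]
    calc ‖κ'‖ * ‖L0‖ * ‖L2‖ ≤ ‖κ'‖ * (A * T) * (A * T) := by gcongr
      _ = _ := by ring
  have h8 : ‖κ * (E0 * L2 - L0 * E2)‖ ≤ 2 * ‖κ‖ * A ^ 2 * T ^ 2 := by
    rw [norm_mul]
    have h9 : ‖E0 * L2 - L0 * E2‖ ≤ (A * T) * (A * T) + (A * T) * (A * T) := by
      refine (norm_sub_le _ _).trans ?_
      rw [norm_mul, norm_mul]
      gcongr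
    calc ‖κ‖ * ‖E0 * L2 - L0 * E2‖ ≤ ‖κ‖ * ((A * T) * (A * T) + (A * T) * (A * T)) :=
          mul_le_mul_of_nonneg_left h9 (norm_nonneg _)
      _ = _ := by ring
  have h10 : ‖κ‖ * ‖a0 * b2 - a2 * b0‖ * ‖R' * S - R * S'‖ ≤
      ((CL / r) * (1 + ‖κ‖ ^ 2) * A ^ 2 + ‖κ'‖ * A ^ 2 + 2 * ‖κ‖ * A ^ 2) * T ^ 2 := by
    rw [← norm_mul, ← norm_mul, key]
    refine (norm_sub_le _ _).trans ?_
    have h11 := norm_sub_le (h' * L2 ^ 2) (κ' * L0 * L2)
    rw [norm_mul h', norm_pow] at h11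
    linarith
  have hpos : 0 < ‖κ‖ * ‖a0 * b2 - a2 * b0‖ := mul_pos (norm_pos_iff.2 hκ) (norm_pos_iff.2 hD)
  have hT2 : T ^ 2 ≤ 2 * (‖R‖ ^ 2 + ‖S‖ ^ 2) := by
    rw [hT]
    nlinarith [sq_nonneg (‖R‖ - ‖S‖)]
  rw [div_mul_eq_mul_div, le_div_iff₀ hpos, mul_comm]
  refine h10.trans ?_
  have hM : 0 ≤ (CL / r) * (1 + ‖κ‖ ^ 2) * A ^ 2 + ‖κ'‖ * A ^ 2 + 2 * ‖κ‖ * A ^ 2 := by positivity
  nlinarith [mul_le_mul_of_nonneg_left hT2 hM]

private theorem lanx : ∃ CL : ℝ, ∀ (x : ℂ) (r : ℝ), 0 < r → ∀ α β : Fin 3 → ℂ → ℂ,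
    (∀ i, DifferentiableOn ℂ (α i) (ball x r)) → (∀ i, DifferentiableOn ℂ (β i) (ball x r)) →
    (∀ i j, i ≠ j → ∀ z ∈ ball x r, α i z * β j z - α j z * β i z ≠ 0) →
    ∀ R S : ℂ → ℂ, DifferentiableOn ℂ R (ball x r) → DifferentiableOn ℂ S (ball x r) →
      (∀ i, ∀ z ∈ ball x r, β i z * R z - α i z * S z ≠ 0) →
      ‖deriv R x * S x - R x * deriv S x‖ ≤ lipC CL r α β x * (‖R x‖ ^ 2 + ‖S x‖ ^ 2) := by
  obtain ⟨CL, hCL, hlan⟩ := Pool.Agent.H91.CS.landau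
  refine ⟨CL, fun x r hr α β hα hβ hD R S hR hS hL => ?_⟩
  have hx : x ∈ ball x r := mem_ball_self hr
  have hnh : ball x r ∈ 𝓝 x := isOpen_ball.mem_nhds hx
  obtain ⟨κ, hκ⟩ : ∃ κ : ℂ → ℂ, κ = fun z => -(α 1 z * β 2 z - α 2 z * β 1 z) / (α 0 z * β 1 z - α 1 z * β 0 z) :=
    ⟨_, rfl⟩
  have hκk : kap α β = κ := by rw [hκ]; rfl
  have hκd : DifferentiableOn ℂ κ (ball x r) := by
    rw [hκ]
    refine DifferentiableOn.div ?_ ?_ (fun z hz => hD 0 1 (by decide) z hz)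
    · exact (((hα 1).mul (hβ 2)).sub ((hα 2).mul (hβ 1))).neg
    · exact ((hα 0).mul (hβ 1)).sub ((hα 1).mul (hβ 0))
  have hκ0 : ∀ z ∈ ball x r, κ z ≠ 0 := by
    intro z hz
    rw [hκ]
    exact div_ne_zero (neg_ne_zero.2 (hD 1 2 (by decide) z hz)) (hD 0 1 (by decide) z hz)
  obtain ⟨A, hA⟩ : ∃ A : ℝ, A = (‖α 0 x‖ + ‖β 0 x‖) + (‖α 2 x‖ + ‖β 2 x‖) + (‖deriv (α 0) x‖ + ‖deriv (β 0) x‖) +
      (‖deriv (α 2) x‖ + ‖deriv (β 2) x‖) := ⟨_, rfl⟩
  have hAk : lipA α β x = A := by rw [hA]; rfl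
  unfold lipC
  rw [hκk, hAk]
  have n1 := norm_nonneg (α 0 x)
  have n2 := norm_nonneg (β 0 x)
  have n3 := norm_nonneg (α 2 x)
  have n4 := norm_nonneg (β 2 x)
  have n5 := norm_nonneg (deriv (α 0) x)
  have n6 := norm_nonneg (deriv (β 0) x)
  have n7 := norm_nonneg (deriv (α 2) x)
  have n8 := norm_nonneg (deriv (β 2) x)
  have dα : ∀ i, HasDerivAt (α i) (deriv (α i) x) x := fun i => ((hα i).differentiableAt hnh).hasDerivAt
  have dβ : ∀ i, HasDerivAt (β i) (deriv (β i) x) x := fun i => ((hβ i).differentiableAt hnh).hasDerivAt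
  have dR : HasDerivAt R (deriv R x) x := (hR.differentiableAt hnh).hasDerivAt
  have dS : HasDerivAt S (deriv S x) x := (hS.differentiableAt hnh).hasDerivAt
  have dκ : HasDerivAt κ (deriv κ x) x := (hκd.differentiableAt hnh).hasDerivAt
  obtain ⟨h, hh⟩ : ∃ h : ℂ → ℂ, h = fun z => κ z * (β 0 z * R z - α 0 z * S z) / (β 2 z * R z - α 2 z * S z) := ⟨_, rfl⟩
  have hhd : DifferentiableOn ℂ h (ball x r) := by
    rw [hh]
    refine DifferentiableOn.div ?_ ?_ (fun z hz => hL 2 z hz)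
    · exact hκd.mul (((hβ 0).mul hR).sub ((hα 0).mul hS))
    · exact ((hβ 2).mul hR).sub ((hα 2).mul hS)
  have hh0 : ∀ z ∈ ball x r, h z ≠ 0 ∧ h z ≠ 1 := by
    intro z hz
    have hD01 := hD 0 1 (by decide) z hz
    constructor
    · rw [hh]
      exact div_ne_zero (mul_ne_zero (hκ0 z hz) (hL 0 z hz)) (hL 2 z hz)
    · intro h1
      rw [hh] at h1
      have h2 : κ z * (β 0 z * R z - α 0 z * S z) = β 2 z * R z - α 2 z * S z := by
        rwa [div_eq_one_iff_eq (hL 2 z hz)] at h1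
      have h3 : κ z * (α 0 z * β 1 z - α 1 z * β 0 z) = -(α 1 z * β 2 z - α 2 z * β 1 z) := by
        rw [hκ]
        exact div_mul_cancel₀ _ hD01
      have h4 : (β 1 z * R z - α 1 z * S z) * (α 2 z * β 0 z - α 0 z * β 2 z) = 0 := by
        linear_combination (α 0 z * β 1 z - α 1 z * β 0 z) * h2 - (β 0 z * R z - α 0 z * S z) * h3
      rcases mul_eq_zero.1 h4 with h5 | h5
      · exact hL 1 z hz h5
      · exact hD 2 0 (by decide) z hz h5
  have hdl : r * ‖deriv h x‖ ≤ CL * (1 + ‖h x‖ ^ 2) := by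
    have hmap : ∀ z ∈ ball (0 : ℂ) 1, x + (r : ℂ) * z ∈ ball x r := by
      intro z hz
      rw [mem_ball_zero_iff] at hz
      rw [mem_ball, dist_eq_norm, add_sub_cancel_left, norm_mul, Complex.norm_real, Real.norm_of_nonneg hr.le]
      calc r * ‖z‖ < r * 1 := mul_lt_mul_of_pos_left hz hr
        _ = r := mul_one r
    have h1 := hlan (fun z => h (x + (r : ℂ) * z)) (by
      refine DifferentiableOn.comp hhd ?_ hmap
      fun_prop) (fun z hz => hh0 _ (hmap z hz))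
    have h2 : HasDerivAt (fun z : ℂ => h (x + (r : ℂ) * z)) (deriv h x * (r : ℂ)) 0 := by
      have h3 : HasDerivAt h (deriv h x) (x + (r : ℂ) * 0) := by
        rw [mul_zero, add_zero]
        exact (hhd.differentiableAt hnh).hasDerivAt
      have h4 : HasDerivAt (fun z : ℂ => x + (r : ℂ) * z) (r : ℂ) 0 := by
        have := ((hasDerivAt_id (0 : ℂ)).const_mul (r : ℂ)).const_add x
        simpa using this
      exact HasDerivAt.comp (0 : ℂ) h3 h4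
    rw [h2.deriv, norm_mul, Complex.norm_real, Real.norm_of_nonneg hr.le] at h1
    simp only [mul_zero, add_zero] at h1
    linarith
  have hder : HasDerivAt h (((deriv κ x * (β 0 x * R x - α 0 x * S x) + κ x *
      ((deriv (β 0) x * R x + β 0 x * deriv R x) - (deriv (α 0) x * S x + α 0 x * deriv S x))) *
      (β 2 x * R x - α 2 x * S x) - κ x * (β 0 x * R x - α 0 x * S x) *
      ((deriv (β 2) x * R x + β 2 x * deriv R x) - (deriv (α 2) x * S x + α 2 x * deriv S x))) /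
      (β 2 x * R x - α 2 x * S x) ^ 2) x := by
    rw [hh]
    exact (dκ.mul (((dβ 0).mul dR).sub ((dα 0).mul dS))).div (((dβ 2).mul dR).sub ((dα 2).mul dS)) (hL 2 x hx)
  have hL2 : β 2 x * R x - α 2 x * S x ≠ 0 := hL 2 x hx
  have q1 : ‖α 0 x‖ + ‖β 0 x‖ ≤ A := by rw [hA]; linarith
  have q2 : ‖α 2 x‖ + ‖β 2 x‖ ≤ A := by rw [hA]; linarith
  have q3 : ‖deriv (α 0) x‖ + ‖deriv (β 0) x‖ ≤ A := by rw [hA]; linarith
  have q4 : ‖deriv (α 2) x‖ + ‖deriv (β 2) x‖ ≤ A := by rw [hA]; linarith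
  refine lan_est hr hCL q1 q2 q3 q4
    (hκ0 x hx) (hD 0 2 (by decide) x hx) (h := h x) (h' := deriv h x) ?_ hdl ?_
  · rw [hh]
    exact div_mul_cancel₀ _ hL2
  · rw [hder.deriv]
    exact div_mul_cancel₀ _ (pow_ne_zero 2 hL2)

private theorem m3_ce (x y : OnePoint ℂ) : chord x y = Pool.Agent.H91.Fatou.chord x y := by
  induction x using OnePoint.rec with
  | infty =>
    induction y using OnePoint.rec with
    | infty =>
      show (0 : ℝ) = _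
      rw [Pool.Agent.H91.Fatou.chord_self]
    | coe w =>
      change 1 / √(1 + ‖w‖ ^ 2) = ‖(1 : ℂ) * 1 - w * 0‖ / (√(‖(1 : ℂ)‖ ^ 2 + ‖(0 : ℂ)‖ ^ 2) * √(‖w‖ ^ 2 + ‖(1 : ℂ)‖ ^ 2))
      simp [add_comm]
  | coe z =>
    induction y using OnePoint.rec with
    | infty =>
      change 1 / √(1 + ‖z‖ ^ 2) = ‖z * 0 - (1 : ℂ) * 1‖ / (√(‖z‖ ^ 2 + ‖(1 : ℂ)‖ ^ 2) * √(‖(1 : ℂ)‖ ^ 2 + ‖(0 : ℂ)‖ ^ 2))
      simp [add_comm]
    | coe w =>
      change ‖z - w‖ / (√(1 + ‖z‖ ^ 2) * √(1 + ‖w‖ ^ 2)) =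
        ‖z * 1 - w * 1‖ / (√(‖z‖ ^ 2 + ‖(1 : ℂ)‖ ^ 2) * √(‖w‖ ^ 2 + ‖(1 : ℂ)‖ ^ 2))
      simp [add_comm]

private theorem m3_pt {x y x' y' : ℂ} (h : x ≠ 0 ∨ y ≠ 0) (h' : x' ≠ 0 ∨ y' ≠ 0) :
    chord (pt x y) (pt x' y') = ‖x * y' - x' * y‖ /
      (Pool.Agent.H91.Fatou.nn x y * Pool.Agent.H91.Fatou.nn x' y') := by
  rw [m3_ce]
  exact Pool.Agent.H91.Fatou.chord_pt h h'

private theorem lip_seg {R S : ℂ → ℂ} {x : ℂ} {ρ C : ℝ} (hR : DifferentiableOn ℂ R (ball x ρ))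
    (hS : DifferentiableOn ℂ S (ball x ρ)) (hne : ∀ z ∈ ball x ρ, R z ≠ 0 ∨ S z ≠ 0)
    (hC : ∀ z ∈ ball x ρ, ‖deriv R z * S z - R z * deriv S z‖ ≤ C * (‖R z‖ ^ 2 + ‖S z‖ ^ 2))
    {z w : ℂ} (hz : z ∈ ball x ρ) (hw : w ∈ ball x ρ) :
    chord (pt (R z) (S z)) (pt (R w) (S w)) ≤ C * ‖w - z‖ := by
  obtain ⟨u, hu⟩ : ∃ u : ℝ → ℂ, u = fun s : ℝ => z + (s : ℂ) * (w - z) := ⟨_, rfl⟩
  have hu0 : u 0 = z := by rw [hu]; simp
  have hu1 : u 1 = w := by rw [hu]; simp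
  have hub : ∀ s ∈ Icc (0 : ℝ) 1, u s ∈ ball x ρ := by
    intro s hs
    have h1 := (convex_ball x ρ) hz hw (by linarith [hs.2] : (0 : ℝ) ≤ 1 - s) hs.1 (by ring)
    have h2 : u s = (1 - s) • z + s • w := by
      rw [hu]
      simp only [Complex.real_smul]
      push_cast
      ring
    rw [h2]
    exact h1
  have hu0b : u 0 ∈ ball x ρ := by rw [hu0]; exact hz
  have hud : ∀ s : ℝ, HasDerivAt u (w - z) s := by
    intro s
    rw [hu]
    have h1 : HasDerivAt (fun s : ℝ => (s : ℂ)) 1 s := Complex.ofRealCLM.hasDerivAt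
    have h2 := (h1.mul_const (w - z)).const_add z
    rwa [one_mul] at h2
  obtain ⟨N, hN⟩ : ∃ N : ℝ → ℝ, N = fun s => Pool.Agent.H91.Fatou.nn (R (u s)) (S (u s)) := ⟨_, rfl⟩
  have hNpos : ∀ s, u s ∈ ball x ρ → 0 < N s := fun s hs => by
    rw [hN]
    exact Pool.Agent.H91.Fatou.nn_pos (hne (u s) hs)
  have huc : Continuous u := continuous_iff_continuousAt.2 fun s => (hud s).continuousAt
  have hRa : ∀ s, u s ∈ ball x ρ → HasDerivAt R (deriv R (u s)) (u s) :=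
    fun s hs => (hR.differentiableAt (isOpen_ball.mem_nhds hs)).hasDerivAt
  have hSa : ∀ s, u s ∈ ball x ρ → HasDerivAt S (deriv S (u s)) (u s) :=
    fun s hs => (hS.differentiableAt (isOpen_ball.mem_nhds hs)).hasDerivAt
  have hRc : ∀ s, u s ∈ ball x ρ → ContinuousAt (fun s => R (u s)) s := fun s hs =>
    ContinuousAt.comp (f := u) (g := R) (hRa s hs).continuousAt huc.continuousAt
  have hSc : ∀ s, u s ∈ ball x ρ → ContinuousAt (fun s => S (u s)) s := fun s hs =>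
    ContinuousAt.comp (f := u) (g := S) (hSa s hs).continuousAt huc.continuousAt
  have hNc : ∀ s, u s ∈ ball x ρ → ContinuousAt N s := by
    intro s hs
    rw [hN]
    exact Pool.Agent.H91.Fatou.nn_continuous.continuousAt.comp
      (f := fun s => (R (u s), S (u s))) ((hRc s hs).prodMk (hSc s hs))
  have hN2 : ∀ s, N s * N s = ‖R (u s)‖ ^ 2 + ‖S (u s)‖ ^ 2 := by
    intro s
    rw [hN]
    show √(‖R (u s)‖ ^ 2 + ‖S (u s)‖ ^ 2) * √(‖R (u s)‖ ^ 2 + ‖S (u s)‖ ^ 2) = _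
    exact Real.mul_self_sqrt (by positivity)
  have hK : ∀ a b : ℝ, u a ∈ ball x ρ → u b ∈ ball x ρ →
      chord (pt (R (u a)) (S (u a))) (pt (R (u b)) (S (u b))) =
      ‖R (u a) * S (u b) - R (u b) * S (u a)‖ / (N a * N b) := by
    intro a b ha hb
    rw [hN]
    exact m3_pt (hne _ ha) (hne _ hb)
  obtain ⟨θ, hθ⟩ : ∃ θ : ℝ → ℝ, θ = fun s =>
    ‖R (u 0) * S (u s) - R (u s) * S (u 0)‖ / (N 0 * N s) := ⟨_, rfl⟩
  have hθK : ∀ s, u s ∈ ball x ρ → θ s = chord (pt (R (u 0)) (S (u 0))) (pt (R (u s)) (S (u s))) := by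
    intro s hs
    rw [hK 0 s hu0b hs, hθ]
  have hθc : ContinuousOn θ (Icc 0 1) := by
    intro s hs
    refine ContinuousAt.continuousWithinAt ?_
    have hs' := hub s hs
    rw [hθ]
    refine ContinuousAt.div ?_ (continuousAt_const.mul (hNc s hs'))
      (mul_pos (hNpos 0 hu0b) (hNpos s hs')).ne'
    exact ((continuousAt_const.mul (hSc s hs')).sub ((hRc s hs').mul continuousAt_const)).norm
  -- the slope
  have hslope : ∀ s ∈ Ico (0 : ℝ) 1, ∀ r, C * ‖w - z‖ < r →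
      ∃ᶠ t in 𝓝[>] s, slope θ s t < r := by
    intro s hs r hr
    have hs' : u s ∈ ball x ρ := hub s ⟨hs.1, hs.2.le⟩
    have hFd : HasDerivAt (fun t => R (u s) * S (u t) - R (u t) * S (u s))
        (R (u s) * ((w - z) * deriv S (u s)) - (w - z) * deriv R (u s) * S (u s)) s := by
      have h1 : HasDerivAt (fun t => S (u t)) ((w - z) * deriv S (u s)) s :=
        (hSa s hs').scomp s (hud s)
      have h2 : HasDerivAt (fun t => R (u t)) ((w - z) * deriv R (u s)) s :=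
        (hRa s hs').scomp s (hud s)
      exact (h1.const_mul _).sub (h2.mul_const _)
    have h3 := (hasDerivAt_iff_tendsto_slope.1 hFd).mono_left
      (nhdsWithin_mono s (fun t (ht : s < t) => ht.ne') : 𝓝[>] s ≤ 𝓝[≠] s)
    have h4 : Tendsto (fun t => ‖slope (fun t => R (u s) * S (u t) - R (u t) * S (u s)) s t‖ /
        (N s * N t)) (𝓝[>] s)
        (𝓝 (‖R (u s) * ((w - z) * deriv S (u s)) - (w - z) * deriv R (u s) * S (u s)‖ /
          (N s * N s))) := by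
      refine h3.norm.div ?_ (mul_pos (hNpos s hs') (hNpos s hs')).ne'
      exact (continuousAt_const.mul (hNc s hs')).tendsto.mono_left nhdsWithin_le_nhds
    have h5 : ‖R (u s) * ((w - z) * deriv S (u s)) - (w - z) * deriv R (u s) * S (u s)‖ /
          (N s * N s) < r := by
      refine lt_of_le_of_lt ?_ hr
      rw [div_le_iff₀ (mul_pos (hNpos s hs') (hNpos s hs')), hN2]
      have h6 : R (u s) * ((w - z) * deriv S (u s)) - (w - z) * deriv R (u s) * S (u s) =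
          -((w - z) * (deriv R (u s) * S (u s) - R (u s) * deriv S (u s))) := by ring
      rw [h6, norm_neg, norm_mul]
      have h7 := hC (u s) hs'
      calc ‖w - z‖ * ‖deriv R (u s) * S (u s) - R (u s) * deriv S (u s)‖
          ≤ ‖w - z‖ * (C * (‖R (u s)‖ ^ 2 + ‖S (u s)‖ ^ 2)) :=
            mul_le_mul_of_nonneg_left h7 (norm_nonneg _)
        _ = _ := by ring
    have hmem : ∀ᶠ t in 𝓝[>] s, u t ∈ ball x ρ :=
      mem_nhdsWithin_of_mem_nhds ((isOpen_ball.preimage huc).mem_nhds hs')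
    have h8 := ((h4.eventually_lt_const h5).and hmem).and self_mem_nhdsWithin
    refine (h8.mono fun t ht => ?_).frequently
    obtain ⟨⟨ht1, htm⟩, ht2⟩ := ht
    have ht3 : 0 < t - s := sub_pos.2 ht2
    refine lt_of_le_of_lt ?_ ht1
    have h9 : ‖slope (fun t => R (u s) * S (u t) - R (u t) * S (u s)) s t‖ =
        ‖R (u s) * S (u t) - R (u t) * S (u s)‖ / (t - s) := by
      rw [slope_def_module, sub_self, sub_zero, norm_smul, norm_inv, Real.norm_eq_abs,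
        abs_of_pos ht3, inv_mul_eq_div]
    have h10 : θ t - θ s ≤ ‖R (u s) * S (u t) - R (u t) * S (u s)‖ / (N s * N t) := by
      rw [← hK s t hs' htm, hθK t htm, hθK s hs']
      have := ch_tri (pt (R (u 0)) (S (u 0))) (pt (R (u s)) (S (u s))) (pt (R (u t)) (S (u t)))
      linarith
    rw [slope_def_field, h9, div_right_comm]
    exact div_le_div_of_nonneg_right h10 ht3.le
  have hfin : ∀ ε : ℝ, 0 < ε → θ 1 ≤ C * ‖w - z‖ + ε := by
    intro ε hε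
    have h1 := image_le_of_liminf_slope_right_lt_deriv_boundary (f := θ)
      (f' := fun _ => C * ‖w - z‖) (a := 0) (b := 1) hθc hslope
      (B := fun s => (C * ‖w - z‖ + ε) * s) (B' := fun _ => C * ‖w - z‖ + ε) ?_ ?_ ?_
      (show (1 : ℝ) ∈ Icc (0 : ℝ) 1 from ⟨zero_le_one, le_rfl⟩)
    · simpa using h1
    · rw [hθK 0 hu0b]
      show chord (pt (R (u 0)) (S (u 0))) (pt (R (u 0)) (S (u 0))) ≤ _
      rw [chord_zero, mul_zero]
    · intro s
      have := (hasDerivAt_id s).const_mul (C * ‖w - z‖ + ε)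
      rwa [mul_one] at this
    · intro s _ _
      show C * ‖w - z‖ < C * ‖w - z‖ + ε
      linarith
  have h1 : θ 1 ≤ C * ‖w - z‖ := le_of_forall_pos_le_add hfin
  rw [hθK 1 (hub 1 ⟨zero_le_one, le_rfl⟩)] at h1
  rwa [hu0, hu1] at h1

theorem lipm {x : ℂ} {r : ℝ} (hr : 0 < r) {α β : Fin 3 → ℂ → ℂ}
    (hα : ∀ i, DifferentiableOn ℂ (α i) (ball x r)) (hβ : ∀ i, DifferentiableOn ℂ (β i) (ball x r))
    (hD : ∀ i j, i ≠ j → ∀ z ∈ ball x r, α i z * β j z - α j z * β i z ≠ 0) :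
    ∃ C : ℝ, 0 ≤ C ∧ ∀ R S : ℂ → ℂ, DifferentiableOn ℂ R (ball x r) → DifferentiableOn ℂ S (ball x r) →
      (∀ i, ∀ z ∈ ball x r, β i z * R z - α i z * S z ≠ 0) →
      ∀ z ∈ ball x (r / 2), ∀ w ∈ ball x (r / 2),
        chord (pt (R z) (S z)) (pt (R w) (S w)) ≤ C * ‖z - w‖ := by
  obtain ⟨CL, hlan⟩ := lanx
  have hr2 : 0 < r / 2 := by positivity
  have hsub : closedBall x (r / 2) ⊆ ball x r := closedBall_subset_ball (by linarith)
  have hκd : DifferentiableOn ℂ (kap α β) (ball x r) := by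
    unfold kap
    refine DifferentiableOn.div ?_ ?_ (fun z hz => hD 0 1 (by decide) z hz)
    · exact (((hα 1).mul (hβ 2)).sub ((hα 2).mul (hβ 1))).neg
    · exact ((hα 0).mul (hβ 1)).sub ((hα 1).mul (hβ 0))
  have hκ0 : ∀ z ∈ ball x r, kap α β z ≠ 0 := by
    intro z hz
    exact div_ne_zero (neg_ne_zero.2 (hD 1 2 (by decide) z hz)) (hD 0 1 (by decide) z hz)
  have hκc := (hκd.continuousOn.mono hsub).norm
  have hκ'c := ((hκd.deriv isOpen_ball).continuousOn.mono hsub).norm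
  have cα := fun i => ((hα i).continuousOn.mono hsub).norm
  have cβ := fun i => ((hβ i).continuousOn.mono hsub).norm
  have cα' := fun i => (((hα i).deriv isOpen_ball).continuousOn.mono hsub).norm
  have cβ' := fun i => (((hβ i).deriv isOpen_ball).continuousOn.mono hsub).norm
  have hAc : ContinuousOn (lipA α β) (closedBall x (r / 2)) := by
    unfold lipA
    exact ((((cα 0).add (cβ 0)).add ((cα 2).add (cβ 2))).add ((cα' 0).add (cβ' 0))).add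
      ((cα' 2).add (cβ' 2))
  have hDc : ContinuousOn (fun y => ‖α 0 y * β 2 y - α 2 y * β 0 y‖) (closedBall x (r / 2)) :=
    (((((hα 0).mul (hβ 2)).sub ((hα 2).mul (hβ 0))).continuousOn).mono hsub).norm
  have hcont : ContinuousOn (lipC CL (r / 2) α β) (closedBall x (r / 2)) := by
    unfold lipC
    refine ContinuousOn.div ?_ (hκc.mul hDc) ?_
    · refine continuousOn_const.mul (((ContinuousOn.mul ?_ (hAc.pow 2)).add
        (hκ'c.mul (hAc.pow 2))).add ((continuousOn_const.mul hκc).mul (hAc.pow 2)))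
      exact continuousOn_const.mul (continuousOn_const.add (hκc.pow 2))
    · intro y hy
      exact (mul_pos (norm_pos_iff.2 (hκ0 y (hsub hy)))
        (norm_pos_iff.2 (hD 0 2 (by decide) y (hsub hy)))).ne'
  obtain ⟨C, hC⟩ := (isCompact_closedBall x (r / 2)).exists_bound_of_continuousOn hcont
  refine ⟨|C|, abs_nonneg _, fun R S hR hS hL z hz w hw => ?_⟩
  have hsub2 : ball x (r / 2) ⊆ ball x r := ball_subset_ball (by linarith)
  have hsub3 : ∀ y ∈ ball x (r / 2), ball y (r / 2) ⊆ ball x r := by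
    intro y hy t ht
    rw [mem_ball] at hy ht ⊢
    have := dist_triangle t y x
    linarith
  have hne : ∀ y ∈ ball x (r / 2), R y ≠ 0 ∨ S y ≠ 0 := by
    intro y hy
    by_contra hcon
    push Not at hcon
    apply hL 0 y (hsub2 hy)
    rw [hcon.1, hcon.2, mul_zero, mul_zero, sub_zero]
  have hb : ∀ y ∈ ball x (r / 2),
      ‖deriv R y * S y - R y * deriv S y‖ ≤ |C| * (‖R y‖ ^ 2 + ‖S y‖ ^ 2) := by
    intro y hy
    have hs := hsub3 y hy
    have h1 := hlan y (r / 2) hr2 α β (fun i => (hα i).mono hs) (fun i => (hβ i).mono hs)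
      (fun i j hij z hz => hD i j hij z (hs hz)) R S (hR.mono hs) (hS.mono hs)
      (fun i z hz => hL i z (hs hz))
    refine h1.trans (mul_le_mul_of_nonneg_right ?_ (by positivity))
    exact ((le_abs_self _).trans (hC y (ball_subset_closedBall hy))).trans (le_abs_self _)
  have h1 := lip_seg (hR.mono hsub2) (hS.mono hsub2) hne hb hz hw
  rwa [norm_sub_rev] at h1

end Pool.Agent.H44.NR
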