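import Pool.Agent.H44.NR.Lip
import Pool.Agent.H47.RJ.FSI
import Pool.Agent.H64.PC.VB4

/-!
# Module Nht: a Fatou point is not hit by the preimages of a moving Julia point

PROOF. `δ0 > 0`: `δ0 ≤ chord z0 y` for all `y ∈ JS (Rf v0)` (`JS` is closed, `js_closed`). Let `C` be the constant of `lipm` at the centre `0` with the radius `r / 4`, `α i = Q i`, `β i = 1` (`h.bd i`, `h.ne`). `ε = min (r / 8) (δ0 / (C + 1))`. Suppose `‖t‖ < ε` and `(Rf (v0 + t • w))^[n] z0 = X t`.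
`BD (v0 + t • w) w (r / 2) (fun s => Q 0 (t + s)) (fun s => X (t + s))` (from `h.bd 0`, `(v0 + t • w) + s • w = v0 + (t + s) • w`); `pre_sel` (H64/PC/VB3) gives `F` on `ball 0 (r / 2)` with `psi (Q 0 t) (F 0) = z0`, `(Rf (v0 + (t + s) • w))^[n] (psi (Q 0 (t + s)) (F s)) = X (t + s)`.
Put `R τ = 1 + Q 0 τ * F (τ - t)`, `S τ = F (τ - t)` on `ball 0 (r / 4)` (`‖τ - t‖ < r / 2`). `pt (R τ) (S τ) = psi (Q 0 τ) (F (τ - t)) ≠ Q i τ` because `Q i τ` never lands on `X τ` (`(h.bd i).nq`): `R τ - Q i τ * S τ ≠ 0` (`pt_coe_iff`, `psi_ne`). `lipm` at `t` and `0`: `chord z0 (pt (R 0) (S 0)) ≤ C * ‖t‖ < δ0`,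
but `(Rf v0)^[n] (pt (R 0) (S 0)) = X 0 ∈ JS`, so `pt (R 0) (S 0) ∈ JS` (`js_iff`): contradiction.
-/

set_option autoImplicit false

open Filter Topology Polynomial Metric Set

namespace Pool.Agent.H44.NR

open Pool.Agent.H44.Fatou Pool.Agent.H32.BT Pool.Agent.H79.Eul Pool.Agent.H79.Par
open Pool.Agent.H35.EX Pool.Agent.H44.RR Pool.Agent.H56.HR Pool.Agent.H44.RC Pool.Agent.H47.RJ
open Pool.Agent.H64.PC

variable {d : ℕ} {v0 w : E d} {r : ℝ} {Q : Fin 3 → ℂ → ℂ} {X : ℂ → ℂ} {p : ℕ}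

private theorem nht_shift {q Y : ℂ → ℂ} (h : BD v0 w r q Y) {t : ℂ} (ht : ‖t‖ < r / 2) :
    BD (v0 + t • w) w (r / 2) (fun s => q (t + s)) (fun s => Y (t + s)) := by
  have hr := h.hr
  have hle : ∀ s : ℂ, ‖s‖ ≤ r / 2 → ‖t + s‖ ≤ r := by
    intro s hs
    have h1 := norm_add_le t s
    linarith
  have he : ∀ s : ℂ, v0 + t • w + s • w = v0 + (t + s) • w := by
    intro s
    rw [add_smul, add_assoc]
  have ha : ∀ s : ℂ, AnalyticAt ℂ (fun s : ℂ => t + s) s := fun s =>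
    analyticAt_const.add analyticAt_id
  refine ⟨by linarith, fun s hs => ?_, fun s hs => ?_, fun s hs => ?_, fun s hs => ?_,
    fun s hs n => ?_, fun s hs c hc n => ?_⟩
  · rw [he]; exact h.cop _ (hle s hs)
  · rw [he]; exact h.deg _ (hle s hs)
  · exact (h.qan _ (hle s hs)).fun_comp (ha s)
  · exact (h.Xan _ (hle s hs)).fun_comp (ha s)
  · rw [he]; exact h.nq _ (hle s hs) n
  · rw [he] at hc ⊢
    exact h.nc _ (hle s hs) c hc n

theorem nhit (hd : 2 ≤ d) (h : BM v0 w r Q X p) {z0 : ℂ} (hz : (z0 : OnePoint ℂ) ∈ FS (Rf v0))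
    (hX : (X 0 : OnePoint ℂ) ∈ JS (Rf v0)) :
    ∃ ε : ℝ, 0 < ε ∧ ∀ t : ℂ, ‖t‖ < ε → ∀ n : ℕ,
      (Rf (v0 + t • w))^[n] (z0 : OnePoint ℂ) ≠ (X t : OnePoint ℂ) := by
  have hr := (h.bd 0).hr
  have h00 : ‖(0 : ℂ)‖ ≤ r := by rw [norm_zero]; exact hr.le
  have e0 : v0 + (0 : ℂ) • w = v0 := by rw [zero_smul, add_zero]
  have hcop := (h.bd 0).cop 0 h00
  have hdeg := (h.bd 0).deg 0 h00
  rw [e0] at hcop hdeg
  -- the distance to the Julia set
  obtain ⟨δ0, hδ0, hJ⟩ : ∃ δ0 : ℝ, 0 < δ0 ∧ ∀ y ∈ JS (Rf v0), δ0 ≤ chord (z0 : OnePoint ℂ) y := by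
    have hcont : Continuous fun y : OnePoint ℂ => chord (z0 : OnePoint ℂ) y :=
      chord_cont.comp (continuous_const.prodMk continuous_id)
    obtain ⟨y0, hy0, hmin⟩ := (js_closed (Rf v0)).isCompact.exists_isMinOn ⟨_, hX⟩
      hcont.continuousOn
    refine ⟨chord (z0 : OnePoint ℂ) y0, chord_pos ?_, fun y hy => hmin hy⟩
    intro he
    rw [← he] at hy0
    exact hy0 hz
  have hle : ∀ t ∈ ball (0 : ℂ) (r / 4), ‖t‖ ≤ r := fun t ht => by
    have := mem_ball_zero_iff.1 ht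
    linarith
  obtain ⟨C, hC0, hC⟩ := lipm (x := 0) (r := r / 4) (by linarith) (α := Q) (β := fun _ _ => 1)
    (fun i t ht => ((h.bd i).qan t (hle t ht)).differentiableAt.differentiableWithinAt)
    (fun i => differentiableOn_const _)
    (fun i j hij t ht => by
      rw [mul_one, mul_one]
      exact sub_ne_zero.2 (h.ne i j hij t (hle t ht)))
  refine ⟨min (r / 8) (δ0 / (C + 1)), lt_min (by linarith) (by positivity), fun t ht n hn => ?_⟩
  have ht1 : ‖t‖ < r / 8 := lt_of_lt_of_le ht (min_le_left _ _)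
  have ht2 : ‖t‖ < δ0 / (C + 1) := lt_of_lt_of_le ht (min_le_right _ _)
  obtain ⟨F, hF, -, -, hpsi, hland⟩ := pre_sel (m := n) (z0 := z0)
    (nht_shift (h.bd 0) (t := t) (by linarith)) (by
      change (Rf (v0 + t • w))^[n] (z0 : OnePoint ℂ) = (X (t + 0) : OnePoint ℂ)
      rw [add_zero]
      exact hn)
  have hpsi' : pt (1 + Q 0 t * F 0) (F 0) = (z0 : OnePoint ℂ) := by
    have h1 := hpsi
    simp only [add_zero] at h1
    exact h1
  have hland' : ∀ τ ∈ ball (0 : ℂ) (r / 4), (Rf (v0 + τ • w))^[n]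
      (pt (1 + Q 0 τ * F (τ - t)) (F (τ - t))) = (X τ : OnePoint ℂ) := by
    intro τ hτ
    have hm : τ - t ∈ ball (0 : ℂ) (r / 2) := by
      rw [mem_ball_zero_iff] at hτ ⊢
      have := norm_sub_le τ t
      linarith
    have h1 := hland (τ - t) hm
    have e1 : v0 + t • w + (τ - t) • w = v0 + τ • w := by
      rw [add_assoc, ← add_smul, add_sub_cancel]
    have e2 : t + (τ - t) = τ := add_sub_cancel _ _
    simp only [e1, e2] at h1
    exact h1
  have hRd : DifferentiableOn ℂ (fun τ : ℂ => F (τ - t)) (ball 0 (r / 4)) := by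
    intro τ hτ
    have hm : τ - t ∈ ball (0 : ℂ) (r / 2) := by
      rw [mem_ball_zero_iff] at hτ ⊢
      have := norm_sub_le τ t
      linarith
    have h1 : DifferentiableAt ℂ F (τ - t) := hF.differentiableAt (isOpen_ball.mem_nhds hm)
    exact (h1.comp τ (differentiableAt_id.sub (differentiableAt_const t))).differentiableWithinAt
  have h0b : (0 : ℂ) ∈ ball (0 : ℂ) (r / 4) := mem_ball_self (by linarith)
  have key := hC (fun τ => 1 + Q 0 τ * F (τ - t)) (fun τ => F (τ - t))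
    ((differentiableOn_const _).add
      (DifferentiableOn.mul (fun τ hτ =>
        ((h.bd 0).qan τ (hle τ hτ)).differentiableAt.differentiableWithinAt) hRd))
    hRd (fun i τ hτ h1 => by
      have h2 : pt (1 + Q 0 τ * F (τ - t)) (F (τ - t)) = (Q i τ : OnePoint ℂ) := by
        rw [pt_coe_iff (psi_ne _ _)]
        rw [one_mul] at h1
        exact h1
      have h3 := hland' τ hτ
      rw [h2] at h3
      exact (h.bd i).nq τ (hle τ hτ) n h3)
    t (by rw [mem_ball_zero_iff]; linarith) 0 (mem_ball_self (by linarith))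
  have hp0 : (Rf v0)^[n] (pt (1 + Q 0 0 * F (0 - t)) (F (0 - t))) = (X 0 : OnePoint ℂ) := by
    have h1 := hland' 0 h0b
    rw [e0] at h1
    exact h1
  have hJ0 : pt (1 + Q 0 0 * F (0 - t)) (F (0 - t)) ∈ JS (Rf v0) := by
    rw [← js_iff (by omega) hcop hdeg n, hp0]
    exact hX
  have h5 := hJ _ hJ0
  have e3 : pt (1 + Q 0 t * F (t - t)) (F (t - t)) = (z0 : OnePoint ℂ) := by
    rw [sub_self]
    exact hpsi'
  simp only [e3, sub_zero] at key
  have h6 : (C + 1) * ‖t‖ < δ0 := by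
    have := (lt_div_iff₀ (by linarith : (0 : ℝ) < C + 1)).1 ht2
    linarith
  have h7 : C * ‖t‖ ≤ (C + 1) * ‖t‖ := by
    have := norm_nonneg t
    nlinarith
  linarith

end Pool.Agent.H44.NR
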