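import Pool.Agent.H44.ND.CLM
import Pool.Agent.H84.BR.Trp

/-!
# Module Tra: uniform trapping near a sink, for all maps near a given map

PROOF. `T` is a closed neighbourhood of the sink `z` with `(Rf v0)^[j] '' T ⊆ B` for all `j` (`sink_stable`) and `(Rf v0)^[n K0] '' T ⊆ interior T` (`unif`). By the joint continuity (`jc_it`) and compactness the same holds for the maps near `v0` and the times `j ≤ n K0`, so for all times. The orbit of `y` enters `interior T`.
-/

set_option autoImplicit false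

open Filter Topology Polynomial Metric Set

namespace Pool.Agent.H44.NR

open Pool.Agent.H44.Fatou Pool.Agent.H32.BT Pool.Agent.H79.Eul Pool.Agent.H79.Par
open Pool.Agent.H35.EX Pool.Agent.H44.RR Pool.Agent.H79.ES Pool.Agent.H44.ND

variable {d : ℕ} {v0 : E d}

theorem trap1 (hd : 2 ≤ d) (hcop : IsCoprime (pol v0.1) (pol v0.2))
    (hdeg : max (pol v0.1).natDegree (pol v0.2).natDegree = d) {z y : OnePoint ℂ} {n : ℕ}
    (hz : IsSink (Rf v0) z n) (hy : Tendsto (fun k : ℕ => (Rf v0)^[n * k] y) atTop (𝓝 z))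
    {B : Set (OnePoint ℂ)} (hB : IsOpen B) (hyB : ∀ j : ℕ, (Rf v0)^[j] y ∈ B)
    (hzB : ∀ j : ℕ, (Rf v0)^[j] z ∈ B) :
    ∃ W ∈ 𝓝 y, ∀ᶠ v in 𝓝 v0, ∀ x ∈ W, ∀ j : ℕ, (Rf v)^[j] x ∈ B := by
  have hf : Continuous (Rf v0) := rat_continuous hcop
  have hst := sink_stable hcop (by omega) (exists_not_att hcop (by omega)) hz
  obtain ⟨hn, hzz, U, hU, hUt⟩ := hz
  -- a neighbourhood whose orbit stays in `B`
  obtain ⟨V, hV, hVB⟩ := hst (⋂ i ∈ Finset.range n, (Rf v0)^[i] ⁻¹' B) (by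
    refine (Filter.biInter_finset_mem _).2 fun i _ => ?_
    exact (hf.iterate i).continuousAt.preimage_mem_nhds (hB.mem_nhds (hzB i)))
  obtain ⟨T, hTz, hT, hTU⟩ := exists_mem_nhds_isClosed_subset (Filter.inter_mem hU hV)
  have hTB : ∀ x ∈ T, ∀ j : ℕ, (Rf v0)^[j] x ∈ B := by
    intro x hx j
    have h1 := mem_iInter₂.1 (hVB x (hTU hx).2 (j / n)) (j % n) (Finset.mem_range.2 (Nat.mod_lt j hn))
    have h2 : (Rf v0)^[j % n] ((Rf v0)^[n * (j / n)] x) ∈ B := h1
    rwa [← Function.iterate_add_apply, Nat.mod_add_div] at h2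
  obtain ⟨K0, hK⟩ := Pool.Agent.H84.BR.unif hf hst hT (fun w hw => hUt w (hTU hw).1)
    (interior_mem_nhds.2 hTz)
  obtain ⟨m, hm⟩ : ∃ m, m = n * (K0 + 1) := ⟨_, rfl⟩
  have hm0 : 0 < m := by rw [hm]; positivity
  have hTm : ∀ x ∈ T, (Rf v0)^[m] x ∈ interior T := by
    intro x hx
    rw [hm]
    exact hK (K0 + 1) (by omega) x hx
  -- maps near `v0`, on `T`
  have e1 : ∀ᶠ v in 𝓝 v0, ∀ x ∈ T, (∀ i ∈ Finset.range m, (Rf v)^[i] x ∈ B) ∧ (Rf v)^[m] x ∈ interior T := by
    refine hT.isCompact.eventually_forall_of_forall_eventually fun x hx => ?_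
    refine Filter.Eventually.and ?_ ?_
    · rw [Filter.eventually_all_finset]
      intro i _
      exact (jc_it (by omega) hcop hdeg i x).eventually (hB.mem_nhds (hTB x hx i))
    · exact (jc_it (by omega) hcop hdeg m x).eventually (isOpen_interior.mem_nhds (hTm x hx))
  -- the orbit of `y`
  obtain ⟨k, hk⟩ := (hy.eventually (interior_mem_nhds.2 hTz)).exists
  have e2 : ∀ᶠ q : E d × OnePoint ℂ in 𝓝 v0 ×ˢ 𝓝 y, (∀ i ∈ Finset.range (n * k), (Rf q.1)^[i] q.2 ∈ B) ∧
      (Rf q.1)^[n * k] q.2 ∈ interior T := by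
    rw [← nhds_prod_eq]
    refine Filter.Eventually.and ?_ ?_
    · rw [Filter.eventually_all_finset]
      intro i _
      exact (jc_it (by omega) hcop hdeg i y).eventually (hB.mem_nhds (hyB i))
    · exact (jc_it (by omega) hcop hdeg (n * k) y).eventually (isOpen_interior.mem_nhds hk)
  obtain ⟨O, hO, W, hW, hOW⟩ := Filter.mem_prod_iff.1 e2
  refine ⟨W, hW, ?_⟩
  filter_upwards [e1, hO] with v h1 h2 x hx
  obtain ⟨h3, h4⟩ := hOW (Set.mk_mem_prod h2 hx)
  have h5 : ∀ q : ℕ, (Rf v)^[m * q] ((Rf v)^[n * k] x) ∈ T := by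
    intro q
    induction q with
    | zero => exact interior_subset h4
    | succ q ih =>
      rw [Nat.mul_succ, Nat.add_comm, Function.iterate_add_apply]
      exact interior_subset (h1 _ ih).2
  intro j
  by_cases hj : j < n * k
  · exact h3 j (Finset.mem_range.2 hj)
  · obtain ⟨i, hi⟩ : ∃ i, j = i + n * k := ⟨j - n * k, by omega⟩
    rw [hi, Function.iterate_add_apply]
    have h6 := (h1 _ (h5 (i / m))).1 (i % m) (Finset.mem_range.2 (Nat.mod_lt i hm0))
    rwa [← Function.iterate_add_apply, Nat.mod_add_div] at h6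

end Pool.Agent.H44.NR
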