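import Pool.Agent.H64.PC.VB4

/-!
# Module Vlf: bounded velocities of the points which land on a moving point (not necessarily periodic)

PROOF. `vel_pre` (H64/PC/VB4), copied: only the times `i ≤ k` are used: `(Rf (v0 + t • w))^[k - i] (pt (G i t)) = X t`, the marked points never land on `X t`, so the iterates `i ≤ k` omit the three marked points (this replaces `land_all`). `Z k t = X t` near `t = 0` (`pt (G k t).1 (G k t).2 = X t`), so `u k = β`.
Put `u i = 0` for `i > k`.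
-/

set_option autoImplicit false

open Filter Topology Polynomial Metric Set

namespace Pool.Agent.H44.NR

open Pool.Agent.H44.Fatou Pool.Agent.H32.BT Pool.Agent.H79.Eul Pool.Agent.H79.Par Pool.Agent.H61.TT
open Pool.Agent.H64.PC

variable {d : ℕ} {v0 w : E d} {r : ℝ} {Q : Fin 3 → ℂ → ℂ} {X : ℂ → ℂ}

theorem vel_fat (hbd : ∀ j, BD v0 w r (Q j) X)
    (hne : ∀ i j, i ≠ j → ∀ t : ℂ, ‖t‖ ≤ r → Q i t ≠ Q j t) {β : ℂ} (hβ : HasDerivAt X β 0) :
    ∃ C : ℝ, ∀ (k : ℕ) (z : ℕ → ℂ),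
      (∀ i < k, (pol v0.2).eval (z i) ≠ 0 ∧ z (i + 1) = gg (pol v0.1) (pol v0.2) (z i)) → z k = X 0 →
      ∃ u : ℕ → ℂ, u k = β ∧ (∀ i < k, u (i + 1) = Pool.Agent.H61.TT.dg (pol v0.1) (pol v0.2) (z i) * u i +
        xi v0 w (z i)) ∧ ∀ i ≤ k, ‖u i‖ ≤ C * (1 + ‖z i‖ ^ 2) := by
  have hr := (hbd 0).hr
  have h00 : ‖(0 : ℂ)‖ ≤ r := by rw [norm_zero]; exact hr.le
  have e0 : v0 + (0 : ℂ) • w = v0 := by rw [zero_smul, add_zero]
  have hcop := (hbd 0).cop 0 h00
  have hdeg := (hbd 0).deg 0 h00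
  rw [e0] at hcop hdeg
  have hle : ∀ t ∈ ball (0 : ℂ) r, ‖t‖ ≤ r := fun t ht => (mem_ball_zero_iff.1 ht).le
  obtain ⟨C, hC⟩ := Pool.Agent.H84.TE.lan3 (x := 0) hr (α := Q) (β := fun _ _ => 1)
    (fun i t ht => ((hbd i).qan t (hle t ht)).differentiableAt.differentiableWithinAt)
    (fun i => differentiableOn_const _)
    (fun i j hij t ht => by
      rw [mul_one, mul_one]
      exact sub_ne_zero.2 (hne i j hij t (hle t ht)))
  refine ⟨|C|, fun k z hz hzk => ?_⟩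
  -- the orbit on the sphere
  have horb : ∀ i ≤ k, (Rf v0)^[i] (z 0 : OnePoint ℂ) = (z i : OnePoint ℂ) := by
    intro i
    induction i with
    | zero => intro _; rfl
    | succ i ih =>
      intro hi
      rw [Function.iterate_succ_apply', ih (by omega), (hz i (by omega)).2]
      exact rat_coe_of_ne (hz i (by omega)).1
  obtain ⟨F, hF, -, hF0, hpsi, hland⟩ := pre_sel (hbd 0) (m := k) (z0 := z 0) (by
    rw [horb k le_rfl, hzk])
  -- homogeneous coordinates of the iterates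
  obtain ⟨G, hG⟩ : ∃ G : ℕ → ℂ → ℂ × ℂ, G = fun i t => hi (v0 + t • w) i (1 + Q 0 t * F t, F t) :=
    ⟨_, rfl⟩
  have hGs : ∀ i t, G (i + 1) t = hs (v0 + t • w) (G i t) := by
    intro i t
    rw [hG]
    rfl
  have hGd : ∀ i, DifferentiableOn ℂ (G i) (ball 0 r) := by
    intro i t ht
    have hq : DifferentiableAt ℂ (Q 0) t := ((hbd 0).qan t (hle t ht)).differentiableAt
    have hFt : DifferentiableAt ℂ F t := hF.differentiableAt (isOpen_ball.mem_nhds ht)
    have h1 : DifferentiableAt ℂ (fun t : ℂ =>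
        ((v0 + t • w, (1 + Q 0 t * F t, F t)) : E d × (ℂ × ℂ))) t :=
      ((differentiableAt_const _).add (differentiableAt_id.smul_const w)).prodMk
        (((differentiableAt_const _).add (hq.mul hFt)).prodMk hFt)
    have h2 : DifferentiableAt ℂ (fun p : E d × (ℂ × ℂ) => hi p.1 i p.2)
        ((v0 + t • w, (1 + Q 0 t * F t, F t)) : E d × (ℂ × ℂ)) := (hi_an i _).differentiableAt
    rw [hG]
    exact (h2.comp t h1).differentiableWithinAt
  have hGne : ∀ i, ∀ t ∈ ball (0 : ℂ) r, ((G i t).1 ≠ 0 ∨ (G i t).2 ≠ 0) ∧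
      (Rf (v0 + t • w))^[i] (psi (Q 0 t) (F t)) = pt (G i t).1 (G i t).2 := by
    intro i t ht
    rw [hG]
    exact hi_ne ((hbd 0).cop t (hle t ht)) ((hbd 0).deg t (hle t ht))
      (q := (1 + Q 0 t * F t, F t)) (psi_ne (Q 0 t) (F t)) i
  have homit : ∀ i ≤ k, ∀ j, ∀ t ∈ ball (0 : ℂ) r, 1 * (G i t).1 - Q j t * (G i t).2 ≠ 0 := by
    intro i hik j t ht h1
    rw [one_mul] at h1
    obtain ⟨h2, h3⟩ := hGne i t ht
    have h4 := (pt_coe_iff h2).2 h1
    rw [← h3] at h4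
    have hN : (Rf (v0 + t • w))^[k - i] ((Rf (v0 + t • w))^[i] (psi (Q 0 t) (F t))) =
        (X t : OnePoint ℂ) := by
      rw [← Function.iterate_add_apply, Nat.sub_add_cancel hik]
      exact hland t ht
    rw [h4] at hN
    exact (hbd j).nq t (hle t ht) (k - i) hN
  have hlan := fun i (hik : i ≤ k) => hC (fun t => (G i t).1) (fun t => (G i t).2) (hGd i).fst
    (hGd i).snd (fun j t ht => homit i hik j t ht)
  -- values at zero
  have h0mem : (0 : ℂ) ∈ ball (0 : ℂ) r := mem_ball_self hr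
  have hG0 : ∀ i ≤ k, (G i 0).2 ≠ 0 ∧ (G i 0).1 / (G i 0).2 = z i := by
    intro i hik
    obtain ⟨h1, h2⟩ := hGne i 0 h0mem
    rw [e0, hpsi, horb i hik] at h2
    have h3 := (pt_coe_iff h1).1 h2.symm
    have h4 : (G i 0).2 ≠ 0 := by
      intro h4
      rw [h4, mul_zero, sub_zero] at h3
      rcases h1 with h1 | h1
      · exact h1 h3
      · exact h1 h4
    refine ⟨h4, ?_⟩
    rw [div_eq_iff h4]
    exact sub_eq_zero.1 h3
  obtain ⟨Z, hZ⟩ : ∃ Z : ℕ → ℂ → ℂ, Z = fun i t => (G i t).1 / (G i t).2 := ⟨_, rfl⟩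
  have hZ0 : ∀ i ≤ k, Z i 0 = z i := fun i hik => by rw [hZ]; exact (hG0 i hik).2
  have hG1 : ∀ i, HasDerivAt (fun t => (G i t).1) (deriv (fun t => (G i t).1) 0) 0 := fun i =>
    ((hGd i).fst.differentiableAt (isOpen_ball.mem_nhds h0mem)).hasDerivAt
  have hG2 : ∀ i, HasDerivAt (fun t => (G i t).2) (deriv (fun t => (G i t).2) 0) 0 := fun i =>
    ((hGd i).snd.differentiableAt (isOpen_ball.mem_nhds h0mem)).hasDerivAt
  have hZd : ∀ i ≤ k, HasDerivAt (Z i) ((deriv (fun t => (G i t).1) 0 * (G i 0).2 -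
      (G i 0).1 * deriv (fun t => (G i t).2) 0) / (G i 0).2 ^ 2) 0 := by
    intro i hik
    rw [hZ]
    exact (hG1 i).div (hG2 i) (hG0 i hik).1
  refine ⟨fun i => (deriv (fun t => (G i t).1) 0 * (G i 0).2 -
      (G i 0).1 * deriv (fun t => (G i t).2) 0) / (G i 0).2 ^ 2, ?_, fun i hik => ?_,
      fun i hik => ?_⟩
  · -- the last velocity
    have hev : Z k =ᶠ[𝓝 0] X := by
      have hc2 : ContinuousAt (fun t => (G k t).2) 0 := (hG2 k).continuousAt
      filter_upwards [hc2.eventually_ne (hG0 k le_rfl).1, isOpen_ball.mem_nhds h0mem] with t ht htb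
      obtain ⟨h1, h2⟩ := hGne k t htb
      rw [hland t htb] at h2
      have h3 := (pt_coe_iff h1).1 h2.symm
      have h4 : Z k t = (G k t).1 / (G k t).2 := by rw [hZ]
      rw [h4, div_eq_iff ht]
      exact sub_eq_zero.1 h3
    have h2 := (hev.hasDerivAt_iff).2 hβ
    exact (hZd k le_rfl).unique h2
  · -- the recursion
    have hb : ev v0.2 (Z i 0) ≠ 0 := by
      rw [hZ0 i hik.le, ← pol_eval]
      exact (hz i hik).1
    have h1 := step_der (w := w) (hZd i hik.le) hb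
    have hev : Z (i + 1) =ᶠ[𝓝 0] fun t : ℂ => ev (v0 + t • w).1 (Z i t) / ev (v0 + t • w).2 (Z i t) := by
      have hc2 : ContinuousAt (fun t => (G i t).2) 0 := (hG2 i).continuousAt
      filter_upwards [hc2.eventually_ne (hG0 i hik.le).1] with t ht
      have h2 : G (i + 1) t = ((G i t).2 ^ d * ev (v0 + t • w).1 (Z i t),
          (G i t).2 ^ d * ev (v0 + t • w).2 (Z i t)) := by
        rw [hGs i t, hZ]
        exact hs_fin (v0 + t • w) ht
      have h3 : Z (i + 1) t = (G (i + 1) t).1 / (G (i + 1) t).2 := by rw [hZ]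
      rw [h3, h2]
      exact mul_div_mul_left _ _ (pow_ne_zero _ ht)
    have h2 := (hev.hasDerivAt_iff).2 h1
    have h3 := (hZd (i + 1) hik).unique h2
    rw [hZ0 i hik.le, wv_pol, ev_pol] at h3
    exact h3
  · -- the bound
    have h1 := hlan i hik
    have h2 : 0 < ‖(G i 0).2‖ := norm_pos_iff.2 (hG0 i hik).1
    rw [norm_div, norm_pow, div_le_iff₀ (by positivity)]
    refine h1.trans ?_
    have h3 : ‖(G i 0).1‖ = ‖z i‖ * ‖(G i 0).2‖ := by
      rw [← (hG0 i hik).2, norm_div, div_mul_cancel₀ _ h2.ne']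
    show C * (‖(G i 0).1‖ ^ 2 + ‖(G i 0).2‖ ^ 2) ≤ |C| * (1 + ‖z i‖ ^ 2) * ‖(G i 0).2‖ ^ 2
    rw [h3]
    have h4 : |C| * (1 + ‖z i‖ ^ 2) * ‖(G i 0).2‖ ^ 2 =
        |C| * ((‖z i‖ * ‖(G i 0).2‖) ^ 2 + ‖(G i 0).2‖ ^ 2) := by ring
    rw [h4]
    exact mul_le_mul_of_nonneg_right (le_abs_self C) (by positivity)

end Pool.Agent.H44.NR
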